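import Pool.Agent.Lib.S38.Ysm
import Pool.Agent.Lib.MP_28d281_gt.Branch

/-! The branch of disks, with the regularity of the perturbation. -/

set_option autoImplicit false

open Matrix Metric Complex Filter Topology MeasureTheory Set
open scoped Real ContDiff

namespace Pool.Agent.Lib.S38

open Pool.Agent.Lib.MP_28d281_gt

variable {δ : ℝ}

theorem branch2 (h0 : 0 ≤ δ) (h1 : δ ≤ 1 / 10 ^ 13) : ∃ T : ∀ κ, Sol (ta κ) δ,
    (∀ κ, ContDiffAt ℝ 10 (T κ).Y 0 ∧
      (∀ x ∈ closedBall (0 : ℂ) 1, x ≠ 0 → ContDiffWithinAt ℝ ∞ (T κ).Y (closedBall 0 1) x) ∧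
      ∀ z ∈ ball (0 : ℂ) 1, ‖fderiv ℝ (T κ).Y z‖ ≤ 1) ∧
    ContinuousOn (fun r : ℝ × ℂ => (T r.1).Y r.2) (Ioi 0 ×ˢ closedBall 0 1) ∧
    ContinuousOn (fun p : ℝ × ℂ => dsk p.1 (T p.1) p.2) (Ioi 0 ×ˢ closedBall 0 1) ∧
    ContinuousOn (fun κ => vol (dsk κ (T κ))) (Ioi 0) := by
  obtain ⟨F, hF, cF⟩ := exists_branch h0 h1
  choose S hμ hS using fun κ => sol_of_fix h0 h1 (hF κ).1 (hF κ).2
  have hF1 := fun κ => (hF κ).1
  have cc : ∀ κ, 0 < κ → ContinuousAt (fun a => (sg a 0 * (S a).μ)⁻¹) κ := fun κ hκ => by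
    have a1 := mu_cont (cF κ hκ)
    have a2 : 1 + κ ^ 2 ≠ 0 := by positivity
    have a3 := (inv_pos.mp (c_pos hκ (S κ))).ne'
    simp only [hμ, sg_zero] at a3 ⊢
    fun_prop (disch := assumption)
  have cY : ContinuousOn (fun r : ℝ × ℂ => (S r.1).Y r.2) (Ioi 0 ×ˢ closedBall 0 1) := by
    intro p hp
    have hκ : 0 < p.1 := hp.1
    have hY : ∀ a, ∀ x ∈ closedBall (0 : ℂ) 1,
        ‖(S a).Y x - (S p.1).Y x‖ ≤ 3 * ‖F a - F p.1‖ := fun a x hx => by
      by_cases hx0 : x = 0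
      · rw [hx0, (S a).Y0, (S p.1).Y0, sub_zero, norm_zero]; positivity
      have hs := log_nonneg' (mem_closedBall_zero_iff.mp hx)
      have b1 := (good_cV h0 h1).ev_le (hF1 a) (hF1 p.1) hs (arg x)
      have b2 := (good_cT h0 h1).ev_le (hF1 a) (hF1 p.1) hs (arg x)
      rw [← exists_xp hx0, xp, (S a).Yexp, (S p.1).Yexp, (hS a _ hs _).1, (hS p.1 _ hs _).1,
        (hS a _ hs _).2.2.1, (hS p.1 _ hs _).2.2.1, add_sub_add_comm, ← sub_mul, ← ofReal_sub,
        ← ofReal_sub, ← sub_re, ← sub_re, ← mul_sub]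
      refine (norm_add_le _ _).trans ?_
      rw [norm_mul, norm_I, mul_one, norm_real, norm_real, Real.norm_eq_abs, Real.norm_eq_abs]
      refine (add_le_add (abs_re_le_norm _) (abs_re_le_norm _)).trans ?_
      rw [norm_mul, norm_I, one_mul]
      linarith [norm_nonneg (F a - F p.1)]
    have d1 : ContinuousAt (fun r : ℝ × ℂ => (S p.1).Y r.2) p :=
      ((S p.1).hY.continuous.comp continuous_snd).continuousAt
    have d2 : ContinuousAt (fun r : ℝ × ℂ => F r.1) p := (cF _ hκ).comp continuousAt_fst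
    have d3 : Tendsto (fun r : ℝ × ℂ => (S r.1).Y r.2 - (S p.1).Y r.2)
        (𝓝[Ioi 0 ×ˢ closedBall 0 1] p) (𝓝 0) := by
      refine squeeze_zero_norm' ?_ (by
        simpa only [mul_zero] using ((tendsto_iff_norm_sub_tendsto_zero.mp d2).const_mul
          3).mono_left nhdsWithin_le_nhds)
      filter_upwards [self_mem_nhdsWithin] with r hr using hY r.1 r.2 hr.2
    simpa [ContinuousWithinAt] using d3.add d1.continuousWithinAt
  refine ⟨S, fun κ => Y_reg h0 h1 (hF κ).1 (hF κ).2 _ fun s hs θ =>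
    ⟨(hS κ s hs θ).1, (hS κ s hs θ).2.2.1⟩, cY, fun p hp => ?_,
    fun κ hκ => ContinuousAt.continuousWithinAt ?_⟩
  · have hκ : 0 < p.1 := hp.1
    have c1 : ContinuousWithinAt (fun r : ℝ × ℂ => (sg r.1 0 * (S r.1).μ)⁻¹)
        (Ioi 0 ×ˢ closedBall 0 1) p := ((cc _ hκ).comp continuousAt_fst).continuousWithinAt
    have q1 : ∀ r : ℝ × ℂ, 1 + r.1 ^ 2 * normSq r.2 ≠ 0 := fun r => by
      have := normSq_nonneg r.2
      positivity
    have q2 : ∀ r : ℝ × ℂ, 1 + r.1 ^ 2 ≠ 0 := fun r => by positivity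
    have c2 : Continuous fun r : ℝ × ℂ => ((2 * r.1 / (1 + r.1 ^ 2 * normSq r.2) : ℝ) : ℂ) * r.2 := by
      fun_prop (disch := assumption)
    have c3 : ContinuousWithinAt (fun r : ℝ × ℂ => hor r.1 (S r.1).Y r.2)
        (Ioi 0 ×ˢ closedBall 0 1) p := c2.continuousWithinAt.mul ((cY p hp).const_add 1)
    have c4 : Continuous fun r : ℝ × ℂ => ver r.1 r.2 := by
      simp only [ver, ta_zero]
      fun_prop (disch := assumption)
    refine continuousWithinAt_pi.mpr fun i => ?_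
    fin_cases i
    · exact c1.mul (continuous_re.continuousAt.comp_continuousWithinAt c3)
    · exact c1.mul (continuous_im.continuousAt.comp_continuousWithinAt c3)
    · exact c1.mul c4.continuousWithinAt
  · have hκ : 0 < κ := hκ
    refine continuousAt_const.mul (continuousAt_of_dominated
      (bound := fun _ => 17 * (1 + (κ + 1) ^ 2) ^ 3 * (κ + 1))
      (Eventually.of_forall fun a => (dsk_cont (S a)).aestronglyMeasurable) ?_
      (integrableOn_const measure_closedBall_lt_top.ne) (ae_ball fun x hx hx1 => ?_))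
    · filter_upwards [Ioo_mem_nhds hκ (lt_add_one κ)] with a ha
      refine ae_ball fun x hx hx1 => ?_
      obtain ⟨b1, b2⟩ := dens_bd ha.1 (S a) hx hx1
      rw [Real.norm_of_nonneg b1.le]
      refine b2.trans ?_
      have := ha.1.le
      have := ha.2.le
      gcongr
    · have hs := log_nonneg' hx1
      have e1 := (good_cV h0 h1).ev_cont hF1 (cF κ hκ) hs (arg x)
      have e2 := (good_cS h0 h1).ev_cont hF1 (cF κ hκ) hs (arg x)
      have e3 := (good_cQ h0 h1).ev_cont hF1 (cF κ hκ) hs (arg x)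
      refine (xn_cont ‖x‖ (cc κ hκ) (continuous_re.continuousAt.comp e1)
        (continuous_re.continuousAt.comp e2)
        (continuous_re.continuousAt.comp ((e3.const_mul I).const_mul I))).congr ?_
      filter_upwards [Ioi_mem_nhds hκ] with a ha
      unfold dsk
      rw [(pw2 ha (S a) (c_pos ha (S a)) hx hx1).2.2, (hS a _ hs _).1, (hS a _ hs _).2.1,
        (hS a _ hs _).2.2.2]
      rfl

theorem facts (S : ∀ κ, Sol (ta κ) δ) (c2 : ContinuousOn (fun κ => vol (dsk κ (S κ))) (Ioi 0)) :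
    (∀ t, 0 < t → (∀ z ∈ ball (0 : ℂ) 1, 0 < dsk t (S t) z 2 ∧ dsk t (S t) z 2 ≤ 2 * t) ∧
      ∀ z ∈ sphere (0 : ℂ) 1, nrm (dsk t (S t)) z 0 ≠ 0 ∨ nrm (dsk t (S t)) z 1 ≠ 0) ∧
    Tendsto (fun t => vol (dsk t (S t))) (𝓝[>] 0) (𝓝 0) ∧
    Tendsto (fun t => vol (dsk t (S t))) atTop atTop ∧
    ∀ V, 0 < V → ∃ t, 0 < t ∧ vol (dsk t (S t)) = V := by
  refine ⟨fun t ht => ⟨fun z hz => ?_, fun z hz => ?_⟩, ?_, ?_, fun V hV => ?_⟩
  · have a := normSq_nonneg z
    have b : 0 < 1 - normSq z := by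
      rw [normSq_eq_norm_sq, sub_pos]
      exact pow_lt_one₀ (norm_nonneg _) (mem_ball_zero_iff.mp hz) two_ne_zero
    have hμ := (S t).hμ.1
    have hμ0 : 0 < (S t).μ := by linarith
    simp only [dsk_height ht]
    refine ⟨by positivity, ?_⟩
    rw [div_le_iff₀ (by positivity)]
    have d : 1 / 2 * 1 ≤ (S t).μ * (1 + t ^ 2 * normSq z) := by
      gcongr
      nlinarith [sq_nonneg t]
    nlinarith
  · rw [mem_sphere_zero_iff_norm] at hz
    have hz0 : z ≠ 0 := by rw [← norm_pos_iff, hz]; exact one_pos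
    have a := (dens_bd ht (S t) hz0 hz.le).1
    have b : dsk t (S t) z 2 = 0 := by rw [dsk_height ht, normSq_eq_norm_sq, hz]; simp
    by_contra hc
    push Not at hc
    simp [dotProduct, Fin.sum_univ_three, b, hc.1, hc.2] at a
  · have a : Continuous fun t : ℝ => 23 * (1 + t ^ 2) ^ 3 * t := by fun_prop
    refine squeeze_zero' ?_ ?_ (by simpa using (a.tendsto 0).mono_left nhdsWithin_le_nhds)
    · filter_upwards [self_mem_nhdsWithin] with t ht
      exact mul_nonneg (by norm_num)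
        (integral_nonneg_of_ae (ae_ball fun x hx hx1 => (dens_bd ht (S t) hx hx1).1.le))
    · filter_upwards [self_mem_nhdsWithin] with t ht using vol_up ht _
  · refine tendsto_atTop_mono' _ ?_ (tendsto_id.atTop_div_const (by norm_num : (0 : ℝ) < 128))
    filter_upwards [eventually_ge_atTop 1] with t ht using vol_low ht _
  · have ha : 0 < min 1 (V / 200) := lt_min one_pos (by positivity)
    have ha1 : min 1 (V / 200) ≤ 1 := min_le_left _ _
    have ha2 : min 1 (V / 200) ≤ V / 200 := min_le_right _ _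
    have hb1 : 1 ≤ max 1 (128 * V) := le_max_left _ _
    have hb2 : 128 * V ≤ max 1 (128 * V) := le_max_right _ _
    generalize min 1 (V / 200) = a at *
    generalize max 1 (128 * V) = b at *
    have l1 : vol (dsk a (S a)) ≤ V := by
      refine (vol_up ha _).trans ?_
      calc _ ≤ 23 * (1 + 1 ^ 2) ^ 3 * (V / 200) := by gcongr
        _ ≤ _ := by linarith
    have l2 : V ≤ vol (dsk b (S b)) := le_trans (by linarith) (vol_low hb1 _)
    obtain ⟨t, ht, e⟩ := intermediate_value_Icc (ha1.trans hb1)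
      (c2.mono fun t ht => ha.trans_le ht.1) ⟨l1, l2⟩
    exact ⟨t, ha.trans_le ht.1, e⟩

end Pool.Agent.Lib.S38
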