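import Mathlib

/-! Statement of the removable point lemma for the constant mean curvature graph equation. -/

set_option autoImplicit false

open Complex Filter Topology
open scoped ContDiff

namespace Pool.Agent.Lib.S38

/-- a solution of class ten, smooth off the origin, is smooth at the origin -/
def St_POLE : Prop := ∀ (u : ℂ → ℝ) (K : ℝ), ContDiffAt ℝ 10 u 0 →
  (∀ᶠ z in 𝓝[≠] (0 : ℂ), ContDiffAt ℝ ∞ u z) → fderiv ℝ u 0 = 0 →
  (∀ᶠ z in 𝓝 (0 : ℂ),
    (1 + fderiv ℝ u z 1 ^ 2) * fderiv ℝ (fun w => fderiv ℝ u w I) z I -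
      2 * fderiv ℝ u z 1 * fderiv ℝ u z I * fderiv ℝ (fun w => fderiv ℝ u w 1) z I +
      (1 + fderiv ℝ u z I ^ 2) * fderiv ℝ (fun w => fderiv ℝ u w 1) z 1 =
      K * √(1 + fderiv ℝ u z 1 ^ 2 + fderiv ℝ u z I ^ 2) ^ 3) → ContDiffAt ℝ ∞ u 0

end Pool.Agent.Lib.S38
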