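import Pool.Agent.Lib.S38.Rep

/-! The change of parameter that makes the surface a graph near the pole. -/

set_option autoImplicit false

open Metric Complex Filter Topology Set

namespace Pool.Agent.Lib.S38

theorem jac_pos {A : ℂ →L[ℝ] ℂ} (h : ‖A‖ ≤ 1 / 4) : 0 < jac (ContinuousLinearMap.id ℝ ℂ + A) := by
  have a : ‖A 1‖ ≤ 1 / 4 := by simpa using A.le_of_opNorm_le h 1
  have b : ‖A I‖ ≤ 1 / 4 := by simpa using A.le_of_opNorm_le h I
  have a1 := abs_le.mp ((abs_re_le_norm _).trans a)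
  have a2 := abs_le.mp ((abs_im_le_norm _).trans a)
  have b1 := abs_le.mp ((abs_re_le_norm _).trans b)
  have b2 := abs_le.mp ((abs_im_le_norm _).trans b)
  simp only [jac, _root_.add_apply, ContinuousLinearMap.id_apply, add_re, add_im,
    one_re, one_im, I_re, I_im]
  nlinarith

theorem exists_inv {g : ℂ → ℂ} (hg : ContDiff ℝ 2 g) (hb : ∀ z, ‖fderiv ℝ g z‖ ≤ 1 / 4) :
    ∃ ψ : ℂ → ℂ, (∀ w, ψ w + g (ψ w) = w) ∧ (∀ w, 0 < jac (fderiv ℝ ψ w)) ∧
      (∀ w z, ‖ψ w - z‖ ≤ 2 * ‖w - (z + g z)‖) ∧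
      ∀ (n : WithTop ℕ∞) w, ContDiffAt ℝ n g (ψ w) → ContDiffAt ℝ n ψ w := by
  have hd := hg.differentiable (by norm_num)
  have hl : ∀ x y, ‖g x - g y‖ ≤ 1 / 4 * ‖x - y‖ := fun x y =>
    convex_univ.norm_image_sub_le_of_norm_fderiv_le (fun z _ => hd z) (fun z _ => hb z)
      (mem_univ y) (mem_univ x)
  have ha : ApproximatesLinearOn (fun z => z + g z)
      ((ContinuousLinearEquiv.refl ℝ ℂ : ℂ ≃L[ℝ] ℂ) : ℂ →L[ℝ] ℂ) univ (1 / 4) := fun x _ y _ => by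
    refine le_trans (le_of_eq ?_) (hl x y)
    congr 1
    simp
    ring
  set φ := ha.toHomeomorph _ (Or.inr (by simp; norm_num))
  have e : ∀ z, φ z = z + g z := fun z => rfl
  have e1 : ∀ w, φ.symm w + g (φ.symm w) = w := fun w => φ.apply_symm_apply w
  have d : ∀ z, HasFDerivAt φ (ContinuousLinearMap.id ℝ ℂ + fderiv ℝ g z) z := fun z =>
    (hasFDerivAt_id z).add (hd z).hasFDerivAt
  have sm : ∀ (n : WithTop ℕ∞) w, ContDiffAt ℝ n g (φ.symm w) → ContDiffAt ℝ n φ.symm w :=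
    fun n w h => φ.toOpenPartialHomeomorph.contDiffAt_symm (mem_univ w)
      (f₀' := (ContinuousLinearMap.id ℝ ℂ + fderiv ℝ g (φ.symm w)).toContinuousLinearEquivOfDetNeZero
        (by rw [jac_eq]; exact (jac_pos (hb _)).ne')) (d _) (contDiffAt_id.add h)
  refine ⟨φ.symm, e1, fun w => ?_, fun w z => ?_, sm⟩
  · have h1 := (d (φ.symm w)).comp w
      ((sm 2 w hg.contDiffAt).differentiableAt (by norm_num)).hasFDerivAt
    rw [φ.self_comp_symm] at h1
    have h2 := congrArg (fun A : ℂ →L[ℝ] ℂ => LinearMap.det (A : ℂ →ₗ[ℝ] ℂ))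
      (h1.unique (hasFDerivAt_id w))
    simp only [ContinuousLinearMap.coe_id, LinearMap.det_id] at h2
    have h3 : jac (ContinuousLinearMap.id ℝ ℂ + fderiv ℝ g (φ.symm w)) * jac (fderiv ℝ φ.symm w) =
        1 := by
      rw [← jac_eq, ← jac_eq, ← h2]
      exact (LinearMap.det_comp _ _).symm
    exact (pos_iff_pos_of_mul_pos (by rw [h3]; exact one_pos)).mp (jac_pos (hb _))
  · have h1 := hl (φ.symm w) z
    have h2 : φ.symm w - z = (w - (z + g z)) - (g (φ.symm w) - g z) := by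
      linear_combination e1 w
    have h3 := norm_sub_le (w - (z + g z)) (g (φ.symm w) - g z)
    rw [← h2] at h3
    linarith [norm_nonneg (φ.symm w - z)]

/-- a fixed cut-off -/
noncomputable def chi : ContDiffBump (0 : ℂ) := ⟨1, 2, one_pos, one_lt_two⟩

/-- the horizontal projection minus the identity -/
noncomputable def dv (κ : ℝ) (Y : ℂ → ℂ) (z : ℂ) : ℂ := (1 + κ ^ 2 * ‖z‖ ^ 2)⁻¹ • (z * (1 + Y z)) - z

/-- the perturbation of the identity -/
noncomputable def gq (e κ : ℝ) (Y : ℂ → ℂ) (z : ℂ) : ℂ := chi (((1 + κ) / e) • z) • dv κ Y z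

variable {e κ : ℝ} {Y : ℂ → ℂ}

theorem dv_at {n : WithTop ℕ∞} {z : ℂ} (h : ContDiffAt ℝ n Y z) : ContDiffAt ℝ n (dv κ Y) z :=
  (((contDiffAt_const.add (contDiffAt_const.mul (contDiff_norm_sq ℝ).contDiffAt)).inv
    (by positivity)).smul (contDiffAt_id.mul (contDiffAt_const.add h))).sub contDiffAt_id

theorem gq_at {n : ℕ∞} {z : ℂ} (h : ContDiffAt ℝ n Y z) : ContDiffAt ℝ n (gq e κ Y) z :=
  (chi.contDiff.comp (contDiff_id.const_smul _)).contDiffAt.smul (dv_at h)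

theorem gq_out (he : 0 < e) (hκ : 0 < κ) {z : ℂ} (hz : 2 * (e / (1 + κ)) ≤ ‖z‖) :
    gq e κ Y z = 0 := by
  rw [gq, chi.zero_of_le_dist, zero_smul]
  rw [dist_zero_right, norm_smul, Real.norm_of_nonneg (by positivity), div_mul_eq_mul_div,
    le_div_iff₀ he]
  rw [← mul_div_assoc, div_le_iff₀ (by positivity)] at hz
  change 2 * e ≤ _
  linarith

theorem gq_in (he : 0 < e) (hκ : 0 < κ) : gq e κ Y =ᶠ[𝓝 0] dv κ Y := by
  filter_upwards [closedBall_mem_nhds (0 : ℂ) (by positivity : 0 < e / (1 + κ))] with z hz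
  rw [gq, chi.one_of_mem_closedBall, one_smul]
  rw [mem_closedBall_zero_iff, norm_smul, Real.norm_of_nonneg (by positivity), div_mul_eq_mul_div,
    div_le_iff₀ he]
  rw [mem_closedBall_zero_iff, le_div_iff₀ (by positivity)] at hz
  change _ ≤ 1 * e
  linarith

theorem dv_bd (he : e ≤ 1 / 4) (hκ : 0 < κ) (hY : ContDiff ℝ 2 Y) (h0 : Y 0 = 0)
    (hb : ∀ z ∈ ball (0 : ℂ) 1, ‖fderiv ℝ Y z‖ ≤ 1) {z : ℂ}
    (hz : z ∈ closedBall (0 : ℂ) (2 * (e / (1 + κ)))) : ‖fderiv ℝ (dv κ Y) z‖ ≤ 9 * e := by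
  rw [mem_closedBall_zero_iff, ← mul_div_assoc, le_div_iff₀ (by positivity)] at hz
  have n0 := norm_nonneg z
  have n1 : 0 ≤ κ * ‖z‖ := by positivity
  have z1 : ‖z‖ ≤ 2 * e := by linarith
  have z2 : κ * ‖z‖ ≤ 2 * e := by linarith
  have z3 : κ ^ 2 * ‖z‖ ^ 2 ≤ e := by nlinarith
  have hz1 : z ∈ ball (0 : ℂ) 1 := mem_ball_zero_iff.mpr (by linarith)
  have hd := hY.differentiable (by norm_num)
  have y1 : ‖Y z‖ ≤ ‖z‖ := by
    simpa [h0] using (convex_ball (0 : ℂ) 1).norm_image_sub_le_of_norm_fderiv_le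
      (fun z _ => hd z) hb (mem_ball_self one_pos) hz1
  have hq : 0 < 1 + κ ^ 2 * ‖z‖ ^ 2 := by positivity
  have d1 := (hasDerivAt_inv hq.ne').comp_hasFDerivAt z
    (((hasStrictFDerivAt_norm_sq z).hasFDerivAt.const_mul (κ ^ 2)).const_add 1)
  have d2 := (hasFDerivAt_id (𝕜 := ℝ) z).mul ((hd z).hasFDerivAt.const_add 1)
  have d3 : HasFDerivAt (dv κ Y) _ z := (d1.smul d2).sub (hasFDerivAt_id z)
  rw [d3.fderiv]
  refine ContinuousLinearMap.opNorm_le_bound _ (by linarith) fun v => ?_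
  have q1 : (1 + κ ^ 2 * ‖z‖ ^ 2)⁻¹ ≤ 1 := inv_le_one_of_one_le₀ (by nlinarith)
  have q0 : 0 < (1 + κ ^ 2 * ‖z‖ ^ 2)⁻¹ := by positivity
  have q2 : 1 - (1 + κ ^ 2 * ‖z‖ ^ 2)⁻¹ ≤ κ ^ 2 * ‖z‖ ^ 2 := by
    have := mul_inv_cancel₀ hq.ne'
    nlinarith [mul_nonneg (sq_nonneg κ) (sq_nonneg ‖z‖)]
  have y2 : ‖fderiv ℝ Y z v‖ ≤ ‖v‖ := by simpa using (fderiv ℝ Y z).le_of_opNorm_le (hb z hz1) v
  have y3 : |inner ℝ z v| ≤ ‖z‖ * ‖v‖ := abs_real_inner_le_norm z v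
  have y4 : ‖1 + Y z‖ ≤ 2 := (norm_add_le _ _).trans (by rw [norm_one]; linarith)
  set q := (1 + κ ^ 2 * ‖z‖ ^ 2)⁻¹ with hqd
  have ev : ‖q • (z * fderiv ℝ Y z v + Y z * v) + (q - 1) • v +
      (-(q ^ 2) * (κ ^ 2 * (2 * inner ℝ z v))) • (z * (1 + Y z))‖ ≤ 9 * e * ‖v‖ := by
    have nv := norm_nonneg v
    have a1 : ‖q • (z * fderiv ℝ Y z v + Y z * v)‖ ≤ 1 * (2 * e * ‖v‖ + 2 * e * ‖v‖) := by
      rw [norm_smul, Real.norm_of_nonneg q0.le]
      gcongr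
      refine (norm_add_le _ _).trans ?_
      rw [norm_mul, norm_mul]
      gcongr
      · linarith
      · linarith
    have a2 : ‖(q - 1) • v‖ ≤ e * ‖v‖ := by
      rw [norm_smul, Real.norm_eq_abs, abs_sub_comm, abs_of_nonneg (by linarith)]
      gcongr
      linarith
    have a3 : ‖(-(q ^ 2) * (κ ^ 2 * (2 * inner ℝ z v))) • (z * (1 + Y z))‖ ≤
        1 ^ 2 * (κ ^ 2 * (2 * (‖z‖ * ‖v‖))) * (‖z‖ * 2) := by
      rw [norm_smul, Real.norm_eq_abs, abs_mul, abs_mul, abs_mul, abs_neg, abs_two, norm_mul,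
        abs_of_nonneg (sq_nonneg q), abs_of_nonneg (sq_nonneg κ)]
      gcongr
    have a4 := mul_le_mul_of_nonneg_right z3 nv
    refine (norm_add₃_le).trans ?_
    nlinarith
  refine le_trans (le_of_eq ?_) ev
  congr 1
  simp [hqd]
  ring

theorem exists_e : ∃ e : ℝ, 0 < e ∧ e ≤ 1 / 4 ∧ ∀ (κ : ℝ) (Y : ℂ → ℂ), 0 < κ → ContDiff ℝ 2 Y →
    Y 0 = 0 → (∀ z ∈ ball (0 : ℂ) 1, ‖fderiv ℝ Y z‖ ≤ 1) →
    ∀ z, ‖fderiv ℝ (gq e κ Y) z‖ ≤ 1 / 4 := by
  have c1 : ContDiff ℝ 1 chi := chi.contDiff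
  obtain ⟨L, hL⟩ := (c1.continuous_fderiv one_ne_zero).bounded_above_of_compact_support
    (chi.hasCompactSupport.fderiv ℝ)
  have L0 : 0 ≤ L := (norm_nonneg _).trans (hL 0)
  have he : 1 / (36 * (2 * L + 1)) ≤ 1 / 4 := by
    gcongr
    linarith
  refine ⟨1 / (36 * (2 * L + 1)), by positivity, he, fun κ Y hκ hY h0 hb z => ?_⟩
  have e1 : 1 / (36 * (2 * L + 1)) * (36 * (2 * L + 1)) = 1 := by field_simp
  have e0 : 0 < 1 / (36 * (2 * L + 1)) := by positivity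
  generalize 1 / (36 * (2 * L + 1)) = e at *
  by_cases hz : z ∈ closedBall (0 : ℂ) (2 * (e / (1 + κ)))
  · have hd : Differentiable ℝ (dv κ Y) := fun z =>
      (dv_at hY.contDiffAt).differentiableAt (by norm_num)
    have a1 := (convex_closedBall (0 : ℂ) _).norm_image_sub_le_of_norm_fderiv_le
      (fun z _ => hd z) (fun z hz => dv_bd he hκ hY h0 hb hz)
      (mem_closedBall_self (by positivity)) hz
    have a2 := dv_bd he hκ hY h0 hb hz
    have d1 := ((c1.differentiable one_ne_zero _).hasFDerivAt.comp z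
      ((hasFDerivAt_id z).const_smul ((1 + κ) / e)))
    have d2 : HasFDerivAt (gq e κ Y) _ z := d1.smul (hd z).hasFDerivAt
    rw [d2.fderiv]
    refine (norm_add_le _ _).trans ?_
    rw [norm_smul, ContinuousLinearMap.norm_smulRight_apply]
    have a3 : ‖dv κ Y z‖ ≤ 9 * e * (2 * (e / (1 + κ))) := by
      simp only [dv, h0, zero_mul, smul_zero, sub_zero] at a1
      exact a1.trans (mul_le_mul_of_nonneg_left (mem_closedBall_zero_iff.mp hz) (by positivity))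
    have a4 : ‖(fderiv ℝ chi (((1 + κ) / e) • z)).comp (((1 + κ) / e) • ContinuousLinearMap.id ℝ ℂ)‖
        ≤ L * ((1 + κ) / e) := by
      refine (ContinuousLinearMap.opNorm_comp_le _ _).trans ?_
      rw [norm_smul, ContinuousLinearMap.norm_id, mul_one, Real.norm_of_nonneg (by positivity)]
      gcongr
      exact hL _
    calc _ ≤ 1 * (9 * e) + L * ((1 + κ) / e) * (9 * e * (2 * (e / (1 + κ)))) := by
          gcongr
          · exact (Real.norm_of_nonneg chi.nonneg).trans_le chi.le_one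
          · exact a4
      _ = 9 * e + 18 * L * e := by field_simp; ring
      _ ≤ _ := by linarith
  · have : gq e κ Y =ᶠ[𝓝 z] fun _ => 0 := by
      filter_upwards [isClosed_closedBall.isOpen_compl.mem_nhds hz] with y hy
      exact gq_out e0 hκ (not_le.mp (mt mem_closedBall_zero_iff.mpr hy)).le
    rw [this.fderiv_eq]
    simp

end Pool.Agent.Lib.S38
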