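import Pool.Agent.Lib.S38.Br
import Pool.Agent.Lib.S38.Psi
import Pool.Agent.Lib.S38.PoleSt

/-! The reparametrised disks are smooth on the closed disc. -/

set_option autoImplicit false

open Matrix Metric Complex Filter Topology Set
open scoped Real ContDiff

namespace Pool.Agent.Lib.S38

open Pool.Agent.Lib.MP_28d281_gt

variable {δ e κ c : ℝ} {Y ψ : ℂ → ℂ}

theorem ver_smooth (κ : ℝ) {n : WithTop ℕ∞} : ContDiff ℝ n (ver κ) := by
  have hn : ContDiff ℝ n fun x : ℂ => normSq x := by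
    simp only [normSq_apply]
    exact (reCLM.contDiff.mul reCLM.contDiff).add (imCLM.contDiff.mul imCLM.contDiff)
  exact ((contDiff_const.sub (contDiff_const.mul hn)).div
    (contDiff_const.add (contDiff_const.mul hn)) fun x => by
      have := normSq_nonneg x
      positivity).sub contDiff_const

theorem hor_eq (κ : ℝ) (Y : ℂ → ℂ) (z : ℂ) : hor κ Y z = 2 * κ * (z + dv κ Y z) := by
  simp only [hor, dv, normSq_eq_norm_sq, real_smul]
  push_cast
  ring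

theorem surf_at {n : WithTop ℕ∞} {s : Set ℂ} {x : ℂ} (h : ContDiffWithinAt ℝ n Y s x) :
    ContDiffWithinAt ℝ n (surf κ c Y) s x := by
  have a : ContDiffWithinAt ℝ n (hor κ Y) s x := by
    have b : ContDiffWithinAt ℝ n (fun z => (1 + κ ^ 2 * ‖z‖ ^ 2)⁻¹ • (z * (1 + Y z))) s x :=
      ((contDiffAt_const.add (contDiffAt_const.mul (contDiff_norm_sq ℝ).contDiffAt)).inv
        (by positivity)).contDiffWithinAt.smul
        (contDiffWithinAt_id.mul (contDiffWithinAt_const.add h))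
    refine ((contDiffWithinAt_const (c := (2 * κ : ℂ))).mul b).congr (fun z _ => ?_) ?_ <;>
      simp [hor_eq, dv]
  refine contDiffWithinAt_pi.mpr fun i => ?_
  fin_cases i
  · exact contDiffWithinAt_const.mul (reCLM.contDiff.contDiffAt.comp_contDiffWithinAt x a)
  · exact contDiffWithinAt_const.mul (imCLM.contDiff.contDiffAt.comp_contDiffWithinAt x a)
  · exact contDiffWithinAt_const.mul (ver_smooth κ).contDiffWithinAt

/-- the properties of the inverse of the perturbed identity -/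
structure Inv (e κ : ℝ) (Y ψ : ℂ → ℂ) : Prop where
  eq : ∀ w, ψ w + gq e κ Y (ψ w) = w
  jac : ∀ w, 0 < jac (fderiv ℝ ψ w)
  lip : ∀ w z, ‖ψ w - z‖ ≤ 2 * ‖w - (z + gq e κ Y z)‖
  sm : ∀ (n : WithTop ℕ∞) w, ContDiffAt ℝ n (gq e κ Y) (ψ w) → ContDiffAt ℝ n ψ w
  e0 : 0 < e
  e1 : e ≤ 1 / 4
  k0 : 0 < κ

theorem Inv.inj (h : Inv e κ Y ψ) : Function.Injective ψ := fun w w' a => by
  rw [← h.eq w, a, h.eq]

theorem Inv.left (h : Inv e κ Y ψ) (z : ℂ) : ψ (z + gq e κ Y z) = z := by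
  simpa [sub_eq_zero] using h.lip (z + gq e κ Y z) z

theorem Inv.zero (h : Inv e κ Y ψ) : ψ 0 = 0 := by simpa [gq, dv] using h.left 0

theorem Inv.fix (h : Inv e κ Y ψ) {w : ℂ} (hw : 1 / 2 ≤ ‖w‖) : ψ w = w := by
  have a : e / (1 + κ) ≤ e := div_le_self h.e0.le (by linarith [h.k0])
  simpa [gq_out h.e0 h.k0 (z := w) (by linarith [h.e1])] using h.left w

theorem Inv.cases (h : Inv e κ Y ψ) (w : ℂ) : ψ w = w ∨ (‖w‖ < 1 / 2 ∧ ‖ψ w‖ < 1 / 2) := by
  by_cases a : 1 / 2 ≤ ‖w‖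
  · exact .inl (h.fix a)
  by_cases b : 1 / 2 ≤ ‖ψ w‖
  · exact .inl (h.inj (h.fix b))
  exact .inr ⟨not_le.mp a, not_le.mp b⟩

theorem Inv.ball (h : Inv e κ Y ψ) {w : ℂ} (hw : w ∈ ball (0 : ℂ) 1) : ψ w ∈ ball (0 : ℂ) 1 := by
  rcases h.cases w with a | a
  · rwa [a]
  · exact mem_ball_zero_iff.mpr (by linarith [a.2])

theorem Inv.cball (h : Inv e κ Y ψ) {w : ℂ} :
    ψ w ∈ closedBall (0 : ℂ) 1 ↔ w ∈ closedBall (0 : ℂ) 1 := by
  rcases h.cases w with a | a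
  · rw [a]
  · simp only [mem_closedBall_zero_iff]
    constructor <;> intro <;> linarith [a.1, a.2]

theorem Inv.c2 (h : Inv e κ Y ψ) (hY : ContDiff ℝ 2 Y) : ContDiff ℝ 2 ψ :=
  contDiff_iff_contDiffAt.mpr fun w => h.sm 2 w (gq_at (n := 2) hY.contDiffAt)

theorem Inv.cmc (h : Inv e κ Y ψ) (hY : ContDiff ℝ 2 Y) {X : ℂ → Fin 3 → ℝ} {C : Set ℂ}
    (hX : IsCMCDisk X C) : IsCMCDisk (X ∘ ψ) C ∧ vol (X ∘ ψ) = vol X :=
  cmc_comp hX (h.c2 hY) h.inj h.jac (Subset.antisymm (by rintro _ ⟨w, a, rfl⟩; exact h.cball.mpr a)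
    fun z hz => ⟨_, h.cball.mp (by rwa [h.left]), h.left z⟩)
    fun z hz => h.fix (by rw [mem_sphere_zero_iff_norm.mp hz]; norm_num)

theorem Inv.smooth (hp : St_POLE) (h : Inv e κ Y ψ) (hY : ContDiff ℝ 2 Y) (hc : 0 < c) {C : Set ℂ}
    (hX : IsCMCDisk (surf κ c Y) C) (h1 : ContDiffAt ℝ 10 Y 0)
    (h2 : ∀ x ∈ closedBall (0 : ℂ) 1, x ≠ 0 → ContDiffWithinAt ℝ ∞ Y (closedBall 0 1) x) :
    ContDiffOn ℝ ∞ (surf κ c Y ∘ ψ) (closedBall 0 1) := fun w hw => by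
  have hκ := h.k0
  have s1 : ∀ w ∈ Metric.ball (0 : ℂ) 1, w ≠ 0 → ContDiffAt ℝ ∞ Y (ψ w) := fun w hw h0 =>
    (h2 _ (ball_subset_closedBall (h.ball hw)) fun a => h0 (h.inj (a.trans h.zero.symm))).contDiffAt
      (mem_of_superset (isOpen_ball.mem_nhds (h.ball hw)) ball_subset_closedBall)
  have s2 : ∀ w ∈ Metric.ball (0 : ℂ) 1, w ≠ 0 → ContDiffAt ℝ ∞ ψ w := fun w hw h0 =>
    h.sm _ w (gq_at (s1 w hw h0))
  by_cases h0 : w = 0
  · subst h0
    have t : Tendsto ψ (𝓝 0) (𝓝 0) := by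
      simpa [ContinuousAt, h.zero] using (h.c2 hY).continuous.continuousAt (x := 0)
    have a : surf κ c Y ∘ ψ =ᶠ[𝓝 0] fun w => ![2 * κ * c * w.re, 2 * κ * c * w.im,
        2 * κ * c * (ver κ (ψ w) / (2 * κ))] := by
      filter_upwards [t.eventually (gq_in h.e0 hκ (Y := Y))] with w hw
      rw [Function.comp_apply, surf, hor_eq, ← hw, h.eq]
      ext i
      fin_cases i <;> simp <;> field_simp
    have b : ContDiffAt ℝ 10 (fun w => ver κ (ψ w) / (2 * κ)) 0 :=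
      ((ver_smooth κ).contDiffAt.comp 0 (h.sm 10 0 (gq_at (n := 10) (by rw [h.zero]; exact h1)))).div_const _
    obtain ⟨H, hH⟩ := (h.cmc hY hX).1.cmc
    have d := hp _ _ b (by
      filter_upwards [self_mem_nhdsWithin, mem_nhdsWithin_of_mem_nhds (ball_mem_nhds 0 one_pos)]
        with z z0 z1 using ((ver_smooth κ).contDiffAt.comp z (s2 z z1 z0)).div_const _)
      (IsLocalMax.fderiv_eq_zero (Eventually.of_forall fun z => by
        have := normSq_nonneg (ψ z)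
        refine div_le_div_of_nonneg_right ?_ (by positivity)
        rw [h.zero, ver, ver, normSq_zero, mul_zero, sub_zero, add_zero, div_one,
          sub_le_sub_iff_right, div_le_one (by positivity)]
        nlinarith [sq_nonneg κ]))
      (graph_eq (H := H) (by positivity) a (b.of_le (by norm_num)) (by
        filter_upwards [closedBall_mem_nhds 0 one_pos] with z hz
        rw [numer_eq ((h.cmc hY hX).1.imm z hz), hH z hz]))
    refine (ContDiffAt.congr_of_eventuallyEq (contDiffAt_pi.mpr fun i => ?_) a).contDiffWithinAt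
    fin_cases i
    · exact contDiffAt_const.mul reCLM.contDiff.contDiffAt
    · exact contDiffAt_const.mul imCLM.contDiff.contDiffAt
    · exact contDiffAt_const.mul d
  by_cases h3 : 1 / 2 < ‖w‖
  · refine (surf_at (κ := κ) (c := c) (h2 w hw h0)).congr_of_eventuallyEq ?_
      (by rw [Function.comp_apply, h.fix h3.le])
    filter_upwards [mem_nhdsWithin_of_mem_nhds
      ((isOpen_lt continuous_const continuous_norm).mem_nhds h3)] with z hz
    rw [Function.comp_apply, h.fix (le_of_lt hz)]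
  · have h4 : w ∈ Metric.ball (0 : ℂ) 1 := mem_ball_zero_iff.mpr (by linarith)
    exact ((contDiffWithinAt_univ.mp (surf_at (s1 w h4 h0).contDiffWithinAt)).comp w
      (s2 w h4 h0)).contDiffWithinAt

theorem exists_branch_smooth (hp : St_POLE) (h0 : 0 ≤ δ) (h1 : δ ≤ 1 / 10 ^ 13) :
    ∃ X : ℝ → ℂ → Fin 3 → ℝ,
    (∀ t, 0 < t → IsCMCDisk (X t) (range (crv (q0 δ) (q1 δ))) ∧
      ContDiffOn ℝ ∞ (X t) (closedBall 0 1) ∧
      (∀ z ∈ ball (0 : ℂ) 1, 0 < X t z 2 ∧ X t z 2 ≤ 2 * t) ∧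
      ∀ z ∈ sphere (0 : ℂ) 1, nrm (X t) z 0 ≠ 0 ∨ nrm (X t) z 1 ≠ 0) ∧
    ContinuousOn (fun p : ℝ × ℂ => X p.1 p.2) (Ioi 0 ×ˢ closedBall 0 1) ∧
    ContinuousOn (fun t => vol (X t)) (Ioi 0) ∧ Tendsto (fun t => vol (X t)) (𝓝[>] 0) (𝓝 0) ∧
    Tendsto (fun t => vol (X t)) atTop atTop ∧ ∀ V, 0 < V → ∃ t, 0 < t ∧ vol (X t) = V := by
  obtain ⟨T, r, cY, c1, c2⟩ := branch2 h0 h1
  obtain ⟨f1, f2, f3, f4⟩ := facts T c2
  obtain ⟨e, e0, e1, he⟩ := exists_e
  choose! ψ hψ using fun t (ht : 0 < t) => show ∃ ψ, Inv e t (T t).Y ψ from by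
    obtain ⟨ψ, a, b, c, d⟩ := exists_inv (contDiff_iff_contDiffAt.mpr fun z =>
      gq_at (n := 2) (T t).hY.contDiffAt) (he t _ ht (T t).hY (T t).Y0 (r t).2.2)
    exact ⟨ψ, a, b, c, d, e0, e1, ht⟩
  have k := fun t ht => (hψ t ht).cmc (T t).hY (dsk_cmc ht (T t))
  refine ⟨fun t => dsk t (T t) ∘ ψ t, fun t ht => ⟨(k t ht).1, (hψ t ht).smooth hp (T t).hY
    (c_pos ht _) (dsk_cmc ht _) (r t).1 (r t).2.1, fun z hz => (f1 t ht).1 _ ((hψ t ht).ball hz),
    fun z hz => ?_⟩, c1.comp (f := fun p : ℝ × ℂ => (p.1, ψ p.1 p.2)) (continuousOn_fst.prodMk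
      fun p hp => ?_) fun p hp => ⟨hp.1, (hψ _ hp.1).cball.mpr hp.2⟩,
    c2.congr fun t ht => (k t ht).2, f2.congr' ?_, f3.congr' ?_, fun V hV => ?_⟩
  · have := ((hψ t ht).jac z).ne'
    simpa [nrm_comp (dsk_cmc ht (T t)).smooth ((hψ t ht).c2 (T t).hY), this,
      (hψ t ht).fix (w := z) (by rw [mem_sphere_zero_iff_norm.mp hz]; norm_num)]
      using (f1 t ht).2 z hz
  · have a : ContinuousWithinAt (fun q : ℝ × ℂ => (T q.1).Y (ψ p.1 p.2))
        (Ioi 0 ×ˢ closedBall 0 1) p :=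
      (cY.comp (f := fun q : ℝ × ℂ => (q.1, ψ p.1 p.2)) (by fun_prop)
        fun q hq => ⟨hq.1, (hψ _ hp.1).cball.mpr hp.2⟩) p hp
    have b : ContinuousWithinAt (fun q : ℝ × ℂ => 2 * ‖q.2 - (ψ p.1 p.2 +
        gq e q.1 (T q.1).Y (ψ p.1 p.2))‖) (Ioi 0 ×ˢ closedBall 0 1) p := by
      have := chi.continuous
      unfold gq dv
      fun_prop (disch := positivity)
    rw [ContinuousWithinAt, (hψ _ hp.1).eq, sub_self, norm_zero, mul_zero] at b
    rw [ContinuousWithinAt, tendsto_iff_norm_sub_tendsto_zero]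
    refine squeeze_zero' (Eventually.of_forall fun _ => norm_nonneg _) ?_ b
    filter_upwards [self_mem_nhdsWithin] with q hq using (hψ _ hq.1).lip _ _
  · filter_upwards [self_mem_nhdsWithin] with t ht using (k t ht).2.symm
  · filter_upwards [eventually_gt_atTop 0] with t ht using (k t ht).2.symm
  · obtain ⟨t, ht, a⟩ := f4 V hV
    exact ⟨t, ht, (k t ht).2.trans a⟩

end Pool.Agent.Lib.S38
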