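import Pool.Agent.Lib.S38.Pole2

/-! The removable point lemma for the constant mean curvature graph equation. -/

set_option autoImplicit false

open Complex Filter Topology MeasureTheory
open scoped Real ContDiff FourierTransform

namespace Pool.Agent.Lib.S38

namespace T64

theorem step {V o : ℂ → ℂ} {K : ℂ} (hV : Z 5 V) (ho : Z 3 o) (p0 : dv 1 V 0 = 0) (q0 : dv I V 0 = 0)
    (o0 : o 0 = 0) (e1 : ∀ᶠ z in 𝓝 0, (1 + o z) ^ 2 = 1 + dv 1 V z ^ 2 + dv I V z ^ 2)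
    (e2 : ∀ᶠ z in 𝓝 0, (1 + dv 1 V z ^ 2) * dv I (dv I V) z -
      2 * dv 1 V z * dv I V z * dv I (dv 1 V) z + (1 + dv I V z ^ 2) * dv 1 (dv 1 V) z =
      K * (1 + o z) ^ 3) (m : ℕ) (ih : Integrable fun ξ => ‖ξ‖ ^ m * ‖𝓕 (Lap V) ξ‖) :
    Integrable fun ξ => ‖ξ‖ ^ (m + 1) * ‖𝓕 (Lap V) ξ‖ := by
  have hL : Z 3 (Lap V) := ((hV.dv 1).dv 1).add ((hV.dv I).dv I)
  have h1 {v : ℂ} (hv : ‖v‖ = 1) {f : ℂ → ℂ} : T (m + 1) f 0 (dv v V) :=
    T.of_mom ((hV.dv v).mono (by simp)) ih fun ξ => by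
      rw [norm_four_Lap hV.1]
      calc _ ≤ ‖ξ‖ ^ (m + 1) * (2 * π * ‖ξ‖ * ‖𝓕 V ξ‖) := by
            gcongr; exact norm_four_dv hV.1 hv ξ
        _ = 1 * (‖ξ‖ ^ m * (2 * π * ‖ξ‖ ^ 2 * ‖𝓕 V ξ‖)) := by ring
        _ ≤ 2 * π * (‖ξ‖ ^ m * (2 * π * ‖ξ‖ ^ 2 * ‖𝓕 V ξ‖)) := by
            gcongr; linarith [Real.pi_gt_three]
        _ = _ := by ring
  have h2 {v w : ℂ} (hv : ‖v‖ = 1) (hw : ‖w‖ = 1) : T (m + 1) (Lap V) 1 (dv v (dv w V)) := by
    refine ⟨(hV.dv w).dv v, 0, fun R => ?_⟩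
    rw [one_mul, add_zero]
    refine N_le hL.1.wint fun ξ => mul_le_mul_of_nonneg_left ?_ (wt_nonneg ξ)
    rw [norm_four_Lap hV.1, sq, mul_assoc]
    exact (norm_four_dv (hV.1.dv w) hv ξ).trans
      (mul_le_mul_of_nonneg_left (norm_four_dv hV.1 hw ξ) (by positivity))
  have hδ : (0 : ℝ) < (4 * 2 ^ m)⁻¹ := by positivity
  obtain ⟨p, zp, ep, np⟩ := (h1 norm_one (f := V)).1.loc p0 hδ
  obtain ⟨q, zq, eq, nq⟩ := (h1 norm_I (f := V)).1.loc q0 hδ
  obtain ⟨s, zs, es, ns⟩ := ho.loc o0 hδ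
  have k {x : ℝ} (hx : x ≤ (4 * 2 ^ m)⁻¹) : 2 ^ m * x ≤ 1 / 4 :=
    (mul_le_mul_of_nonneg_left hx (by positivity)).trans (le_of_eq (by field_simp))
  have tp {f : ℂ → ℂ} : T (m + 1) f 0 p :=
    (h1 norm_one).congr zp (c := 0) (ep.mono fun z hz => by rw [hz, add_zero])
  have tq {f : ℂ → ℂ} : T (m + 1) f 0 q :=
    (h1 norm_I).congr zq (c := 0) (eq.mono fun z hz => by rw [hz, add_zero])
  have ts {f : ℂ → ℂ} : T (m + 1) f 0 s := by
    have a := ((T.self (m := m + 1) zs).mul (T.self zs) (c := 1 / 2)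
      (by have := k ns; simp only [Nat.add_sub_cancel]; linarith)).cmul (-2⁻¹)
    refine ((((tp.mul0 tp).add (tq.mul0 tq)).cmul 2⁻¹).add a).congr zs (c := 0) ?_ |>.absorb
      (by norm_num)
    filter_upwards [e1, ep, eq, es] with z a b c d
    rw [b, c, d]
    linear_combination 2⁻¹ * a
  have top {a b g : ℂ → ℂ} (ta : T (m + 1) (Lap V) 0 a) (tb : T (m + 1) (Lap V) 0 b)
      (na : nn a ≤ (4 * 2 ^ m)⁻¹) (nb : nn b ≤ (4 * 2 ^ m)⁻¹) (tg : T (m + 1) (Lap V) 1 g) :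
      T (m + 1) (Lap V) (1 / 16) fun z => a z * (b z * g z) :=
    ta.mul (tb.mul tg (c := 1 / 4) (by have := k nb; simp only [Nat.add_sub_cancel]; linarith))
      (by have := k na; simp only [Nat.add_sub_cancel]; linarith)
  have a := ((((top tp tp np np (h2 norm_I norm_I)).cmul (-1)).add
    ((top tp tq np nq (h2 norm_I norm_one)).cmul 2)).add
    ((top tq tq nq nq (h2 norm_one norm_one)).cmul (-1))).add
    ((((ts.cmul 3).add ((ts.mul0 ts).cmul 3)).add (ts.mul0 (ts.mul0 ts))).cmul K)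
  obtain ⟨-, C, hC⟩ := (a.congr hL (c := K) (by
    filter_upwards [e2, ep, eq, es] with z a b c d
    rw [b, c, d, Lap]
    linear_combination a)).absorb (k := V) (by norm_num)
  exact mom_of_N hL.1 (C := C) (by simpa using hC)

theorem dv_re {f : ℂ → ℝ} {g : ℂ → ℂ} (hf : ContDiffAt ℝ 1 f 0) (e : g =ᶠ[𝓝 0] fun z => f z)
    (v : ℂ) : dv v g =ᶠ[𝓝 0] fun z => fderiv ℝ f z v := by
  filter_upwards [dv_congr e v, hf.eventually (by simp)] with z h1 h2
  rw [h1, dv, show (fun z => (f z : ℂ)) = ofRealCLM ∘ f from rfl,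
    (ofRealCLM.hasFDerivAt.comp z (h2.differentiableAt (by simp)).hasFDerivAt).fderiv]
  rfl

end T64

open T64

theorem st_POLE : St_POLE := by
  intro u K h1 h2 h3 h4
  have re {f : ℂ → ℝ} {j : WithTop ℕ∞} {z : ℂ} (h : ContDiffAt ℝ j f z) :
      ContDiffAt ℝ j (fun z => (f z : ℂ)) z := ofRealCLM.contDiff.contDiffAt.comp z h
  have d {j k : WithTop ℕ∞} {z : ℂ} (h : ContDiffAt ℝ k u z) (e : j + 1 ≤ k) (v : ℂ) :
      ContDiffAt ℝ j (fun z => fderiv ℝ u z v) z := (h.fderiv_right e).clm_apply contDiffAt_const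
  have w {j k : WithTop ℕ∞} {z : ℂ} (h : ContDiffAt ℝ k u z) (e : j + 1 ≤ k) : ContDiffAt ℝ j
      (fun z => ((√(1 + fderiv ℝ u z 1 ^ 2 + fderiv ℝ u z I ^ 2) - 1 : ℝ) : ℂ)) z :=
    re ((((contDiffAt_const.add ((d h e 1).pow 2)).add ((d h e I).pow 2)).sqrt
      (by positivity)).sub contDiffAt_const)
  obtain ⟨V, hV, eV⟩ := cut (n := 5) (re (h1.of_le (by norm_cast))) (h2.mono fun z => re)
  obtain ⟨o, ho, eo⟩ := cut (n := 3) (w h1 (by norm_cast)) (h2.mono fun z hz => w hz (by simp))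
  have e1 := dv_re (h1.of_le (by norm_cast)) eV
  have e2 (v : ℂ) := dv_re (d h1 (by norm_cast) v) (e1 v)
  have hm (m : ℕ) : Integrable fun ξ => ‖ξ‖ ^ m * ‖𝓕 (Lap V) ξ‖ := by
    induction m with
    | zero => exact (((hV.dv 1).dv 1).add ((hV.dv I).dv I)).1.mom
    | succ m ih =>
      refine step (K := K) hV ho (by simp [(e1 1).eq_of_nhds, h3]) (by simp [(e1 I).eq_of_nhds, h3])
        (by simp [eo.eq_of_nhds, h3]) ?_ ?_ m ih
      · filter_upwards [eo, e1 1, e1 I] with z a b c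
        rw [a, b, c]
        norm_cast
        rw [add_sub_cancel, Real.sq_sqrt (by positivity)]
      · filter_upwards [h4, eo, e1 1, e1 I, e2 1 1, e2 1 I, e2 I I] with z h a b c e f g
        rw [a, b, c, e, f, g]
        norm_cast
        rw [add_sub_cancel, h]
  have s : ContDiff ℝ ∞ V := by
    refine smooth_of_mom (hV.1.mono (by simp)) fun m => ?_
    have c := four_cont hV.1.int
    refine ((Cc.mom (m := 0) (hV.1.mono (by simp))).add (hm m)).mono' (by fun_prop)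
      (.of_forall fun ξ => ?_)
    rw [Real.norm_of_nonneg (by positivity), Pi.add_apply, norm_four_Lap hV.1, ← mul_assoc,
      ← add_mul, pow_zero]
    gcongr
    rcases le_total ‖ξ‖ 1 with h | h
    · exact (pow_le_one₀ (norm_nonneg _) h).trans (le_add_of_nonneg_right (by positivity))
    · have : 1 ≤ (2 * π * ‖ξ‖) ^ 2 := one_le_pow₀ (by nlinarith [Real.pi_gt_three])
      nlinarith [pow_nonneg (norm_nonneg ξ) m]
  exact (reCLM.contDiff.comp s).contDiffAt.congr_of_eventuallyEq (eV.mono fun z hz => by simp [hz])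

end Pool.Agent.Lib.S38
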