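import Pool.Agent.Lib.S38.PoleSt

/-! Truncated weighted Wiener norms on the plane. -/

set_option autoImplicit false

open Complex Filter Topology MeasureTheory
open scoped Real ContDiff FourierTransform RealInnerProductSpace Convolution

namespace Pool.Agent.Lib.S38.T64

noncomputable def dv (v : ℂ) (g : ℂ → ℂ) (z : ℂ) : ℂ := fderiv ℝ g z v

def Cc (n : ℕ) (g : ℂ → ℂ) : Prop := ContDiff ℝ n g ∧ HasCompactSupport g

variable {n m R : ℕ} {g h : ℂ → ℂ}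

theorem Cc.int (a : Cc n g) : Integrable g := a.1.continuous.integrable_of_hasCompactSupport a.2

theorem Cc.mono (a : Cc n g) (e : m ≤ n) : Cc m g := ⟨a.1.of_le (by exact_mod_cast e), a.2⟩

theorem Cc.dv (a : Cc (n + 1) g) (v : ℂ) : Cc n (dv v g) :=
  ⟨(a.1.fderiv_right (m := n) (by norm_cast)).clm_apply contDiff_const, a.2.fderiv_apply ℝ v⟩

theorem Cc.add (a : Cc n g) (b : Cc n h) : Cc n fun z => g z + h z := ⟨a.1.add b.1, a.2.add b.2⟩

theorem Cc.mul (a : Cc n g) (b : Cc n h) : Cc n fun z => g z * h z := ⟨a.1.mul b.1, a.2.mul_right⟩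

theorem Cc.cmul (a : Cc n g) (c : ℂ) : Cc n fun z => c * g z :=
  ⟨contDiff_const.mul a.1, a.2.mul_left⟩

theorem four_add (a : Cc n g) (b : Cc n h) (ξ : ℂ) :
    𝓕 (fun z => g z + h z) ξ = 𝓕 g ξ + 𝓕 h ξ := by
  simp only [Real.fourier_eq, smul_add]
  exact integral_add ((Real.fourierIntegral_convergent_iff ξ).2 a.int)
    ((Real.fourierIntegral_convergent_iff ξ).2 b.int)

theorem four_cmul (c : ℂ) (g : ℂ → ℂ) (ξ : ℂ) : 𝓕 (fun z => c * g z) ξ = c * 𝓕 g ξ := by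
  simp only [Real.fourier_eq, ← integral_const_mul, mul_smul_comm]

theorem four_cont (a : Integrable g) : Continuous (𝓕 g) :=
  VectorFourier.fourierIntegral_continuous Real.continuous_fourierChar (innerSL ℝ).continuous₂ a

theorem four_le (g : ℂ → ℂ) (ξ : ℂ) : ‖𝓕 g ξ‖ ≤ ∫ z, ‖g z‖ :=
  VectorFourier.norm_fourierIntegral_le_integral_norm _ _ _ _ _

theorem four_dv (a : Cc (n + 1) g) (v ξ : ℂ) :
    𝓕 (dv v g) ξ = 2 * π * I * (⟪ξ, v⟫ : ℝ) * 𝓕 g ξ := by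
  have i : Integrable (fderiv ℝ g) :=
    (a.1.continuous_fderiv (by simp)).integrable_of_hasCompactSupport (a.2.fderiv ℝ)
  have e := Real.fourier_continuousLinearMap_apply (a := v) (v := ξ) i
  rw [Real.fourier_fderiv a.int (a.1.differentiable (by simp)) i] at e
  refine e.symm.trans ?_
  simp only [VectorFourier.fourierSMulRight_apply, neg_apply, innerSL_apply_apply ℝ, neg_smul,
    real_smul, smul_eq_mul]
  ring

theorem norm_four_dv (a : Cc (n + 1) g) {v : ℂ} (hv : ‖v‖ = 1) (ξ : ℂ) :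
    ‖𝓕 (dv v g) ξ‖ ≤ 2 * π * ‖ξ‖ * ‖𝓕 g ξ‖ := by
  have := abs_real_inner_le_norm ξ v
  rw [hv, mul_one] at this
  rw [four_dv a]
  simp only [norm_mul, norm_real, Real.norm_eq_abs, norm_I, mul_one, Complex.norm_ofNat,
    abs_of_pos Real.pi_pos]
  gcongr

noncomputable def Dop (g : ℂ → ℂ) (z : ℂ) : ℂ := dv 1 g z + I * dv I g z

theorem Cc.Dop (a : Cc (n + 1) g) : Cc n (Dop g) := (a.dv 1).add ((a.dv I).cmul I)

theorem norm_four_Dop (a : Cc (n + 1) g) (ξ : ℂ) : ‖𝓕 (Dop g) ξ‖ = 2 * π * ‖ξ‖ * ‖𝓕 g ξ‖ := by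
  have : 𝓕 (Dop g) ξ = 2 * π * I * ξ * 𝓕 g ξ := by
    refine (four_add (a.dv 1) ((a.dv I).cmul I) ξ).trans ?_
    rw [four_cmul, four_dv a, four_dv a]
    have e := re_add_im ξ
    simp only [Complex.inner, one_mul, conj_re, I_mul_re, conj_im, neg_neg]
    linear_combination (2 * π * I * 𝓕 g ξ) * e
  rw [this]
  simp [abs_of_pos Real.pi_pos]

noncomputable def Lap (g : ℂ → ℂ) (z : ℂ) : ℂ := dv 1 (dv 1 g) z + dv I (dv I g) z

theorem norm_four_Lap (a : Cc (n + 1 + 1) g) (ξ : ℂ) :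
    ‖𝓕 (Lap g) ξ‖ = (2 * π * ‖ξ‖) ^ 2 * ‖𝓕 g ξ‖ := by
  have : 𝓕 (Lap g) ξ = -(2 * π * ‖ξ‖ : ℝ) ^ 2 * 𝓕 g ξ := by
    refine (four_add ((a.dv 1).dv 1) ((a.dv I).dv I) ξ).trans ?_
    rw [four_dv (a.dv 1), four_dv (a.dv I), four_dv a, four_dv a]
    have e : (‖ξ‖ : ℂ) ^ 2 = ξ.re ^ 2 + ξ.im ^ 2 := by
      rw [← ofReal_pow, Complex.sq_norm, normSq_apply]; push_cast; ring
    simp only [Complex.inner, one_mul, conj_re, I_mul_re, conj_im, neg_neg]
    push_cast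
    linear_combination (4 * π ^ 2 * 𝓕 g ξ) * e + (4 * π ^ 2 * 𝓕 g ξ * (ξ.re ^ 2 + ξ.im ^ 2)) * I_sq
  rw [this, norm_mul, norm_neg, norm_pow, norm_real, Real.norm_eq_abs, sq_abs]

theorem decay : ∀ (n : ℕ) {g : ℂ → ℂ}, Cc n g → ∀ ξ : ℂ,
    ‖ξ‖ ^ n * ‖𝓕 g ξ‖ ≤ ∫ z, ‖Dop^[n] g z‖
  | 0, g, _, ξ => by simpa using four_le g ξ
  | n + 1, g, a, ξ => by
    refine le_trans ?_ (decay n a.Dop ξ)
    rw [norm_four_Dop a, pow_succ, mul_assoc]
    gcongr
    nlinarith [Real.pi_gt_three, norm_nonneg ξ]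

theorem decay' (a : Cc (m + 3) g) (ξ : ℂ) : ‖ξ‖ ^ m * ‖𝓕 g ξ‖ ≤
    2 ^ (m + 2) * ((∫ z, ‖g z‖) + ∫ z, ‖Dop^[m + 3] g z‖) * (1 + ‖ξ‖) ^ (-3 : ℝ) := by
  have p : 0 < 1 + ‖ξ‖ := by positivity
  have h1 := add_pow_le zero_le_one (norm_nonneg ξ) (m + 3)
  have h2 := decay _ a ξ
  have h3 := four_le g ξ
  rw [Real.rpow_neg p.le, ← div_eq_mul_inv, le_div_iff₀ (by positivity), Real.rpow_ofNat]
  rw [one_pow, show m + 3 - 1 = m + 2 from rfl] at h1
  calc _ ≤ (1 + ‖ξ‖) ^ m * ‖𝓕 g ξ‖ * (1 + ‖ξ‖) ^ 3 := by gcongr; linarith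
    _ = (1 + ‖ξ‖) ^ (m + 3) * ‖𝓕 g ξ‖ := by ring
    _ ≤ 2 ^ (m + 2) * (1 + ‖ξ‖ ^ (m + 3)) * ‖𝓕 g ξ‖ := by gcongr
    _ = 2 ^ (m + 2) * (‖𝓕 g ξ‖ + ‖ξ‖ ^ (m + 3) * ‖𝓕 g ξ‖) := by ring
    _ ≤ _ := by gcongr

theorem int_jap : Integrable fun ξ : ℂ => (1 + ‖ξ‖) ^ (-3 : ℝ) :=
  integrable_one_add_norm (by rw [finrank_real_complex]; norm_num)

theorem Cc.mom (a : Cc (m + 3) g) : Integrable fun ξ => ‖ξ‖ ^ m * ‖𝓕 g ξ‖ :=
  (int_jap.const_mul _).mono' (by have := four_cont a.int; fun_prop)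
    (.of_forall fun ξ => by rw [Real.norm_of_nonneg (by positivity)]; exact decay' a ξ)

theorem Cc.fint (a : Cc 3 g) : Integrable (𝓕 g) :=
  (integrable_norm_iff (four_cont a.int).aestronglyMeasurable).1 (by simpa using Cc.mom (m := 0) a)

theorem four_mul (a : Cc 3 g) (b : Cc 3 h) (ξ : ℂ) :
    𝓕 (fun z => g z * h z) ξ = ∫ η, 𝓕 g η * 𝓕 h (ξ - η) := by
  have e := VectorFourier.integral_fourierIntegral_smul_eq_flip (L := -innerₗ ℂ)
    (f := 𝓕 g) (g := fun x => 𝐞 (-⟪x, ξ⟫) • h x) Real.continuous_fourierChar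
    (innerSL ℝ).continuous₂.neg a.fint ((Real.fourierIntegral_convergent_iff ξ).2 b.int)
  have i : VectorFourier.fourierIntegral 𝐞 volume (-innerₗ ℂ) (𝓕 g) = g :=
    a.1.continuous.fourierInv_fourier_eq a.int a.fint
  rw [i] at e
  simp only [smul_eq_mul, mul_smul_comm] at e
  rw [Real.fourier_eq, e]
  congr 1 with η
  rw [Real.fourier_eq, VectorFourier.fourierIntegral]
  congr 2 with x
  simp only [smul_smul, ← AddChar.map_add_eq_mul]
  congr 2
  simp only [LinearMap.flip_apply, LinearMap.neg_apply, innerₗ_apply_apply, real_inner_comm x η]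
  rw [inner_sub_right (𝕜 := ℝ)]
  ring

noncomputable def wt (m R : ℕ) (ξ : ℂ) : ℝ := min ‖ξ‖ R ^ m

theorem wt_nonneg (ξ : ℂ) : 0 ≤ wt m R ξ := by unfold wt; positivity

theorem wt_le (ξ : ℂ) : wt m R ξ ≤ ‖ξ‖ ^ m := by unfold wt; gcongr; exact min_le_left _ _

theorem wt_sub (ξ η : ℂ) : wt m R ξ ≤ 2 ^ (m - 1) * (wt m R η + wt m R (ξ - η)) := by
  refine le_trans ?_ (add_pow_le (by positivity) (by positivity) m)
  have : ‖ξ‖ ≤ ‖η‖ + ‖ξ - η‖ := by simpa using norm_add_le η (ξ - η)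
  unfold wt
  gcongr
  have := norm_nonneg η
  have := norm_nonneg (ξ - η)
  have : (0 : ℝ) ≤ R := by positivity
  simp only [min_def]
  split_ifs <;> linarith

noncomputable def N (m R : ℕ) (g : ℂ → ℂ) : ℝ := ∫ ξ, wt m R ξ * ‖𝓕 g ξ‖

noncomputable def nn (g : ℂ → ℂ) : ℝ := ∫ ξ, ‖𝓕 g ξ‖

theorem N_nonneg : 0 ≤ N m R g := integral_nonneg fun ξ => mul_nonneg (wt_nonneg ξ) (norm_nonneg _)

theorem nn_nonneg : 0 ≤ nn g := integral_nonneg fun _ => norm_nonneg _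

theorem Cc.wint (a : Cc 3 g) : Integrable fun ξ => wt m R ξ * ‖𝓕 g ξ‖ :=
  a.fint.norm.bdd_mul (c := R ^ m) (by unfold wt; fun_prop) (.of_forall fun ξ => by
    rw [Real.norm_of_nonneg (wt_nonneg ξ), wt]; gcongr; exact min_le_right _ _)

theorem N_le {F : ℂ → ℝ} (hF : Integrable F) (e : ∀ ξ, wt m R ξ * ‖𝓕 g ξ‖ ≤ F ξ) :
    N m R g ≤ ∫ ξ, F ξ :=
  integral_mono_of_nonneg (.of_forall fun ξ => mul_nonneg (wt_nonneg ξ) (norm_nonneg _)) hF
    (.of_forall e)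

theorem N_add (a : Cc 3 g) (b : Cc 3 h) : N m R (fun z => g z + h z) ≤ N m R g + N m R h := by
  refine (N_le (a.wint.add b.wint) fun ξ => ?_).trans (integral_add a.wint b.wint).le
  rw [four_add a b, Pi.add_apply, ← mul_add]
  exact mul_le_mul_of_nonneg_left (norm_add_le _ _) (wt_nonneg ξ)

theorem N_cmul (c : ℂ) : N m R (fun z => c * g z) = ‖c‖ * N m R g := by
  simp only [N, four_cmul, norm_mul, ← integral_const_mul, mul_left_comm]

theorem N_mul (a : Cc 3 g) (b : Cc 3 h) :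
    N m R (fun z => g z * h z) ≤ 2 ^ (m - 1) * (N m R g * nn h + nn g * N m R h) := by
  have a1 := a.wint (m := m) (R := R)
  have b1 := b.wint (m := m) (R := R)
  have a0 := a.fint.norm
  have b0 := b.fint.norm
  have i1 := a1.integrable_convolution (.mul ℝ ℝ) b0
  have i2 := a0.integrable_convolution (.mul ℝ ℝ) b1
  refine (integral_mono_of_nonneg (.of_forall fun ξ => mul_nonneg (wt_nonneg ξ) (norm_nonneg _))
    ((i1.add i2).const_mul (2 ^ (m - 1))) ?_).trans (le_of_eq ?_)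
  · filter_upwards [a1.ae_convolution_exists (.mul ℝ ℝ) b0, a0.ae_convolution_exists (.mul ℝ ℝ) b1]
      with ξ c1 c2
    rw [four_mul a b, Pi.add_apply, convolution_def, convolution_def, ← integral_add c1 c2,
      ← integral_const_mul]
    refine (mul_le_mul_of_nonneg_left (norm_integral_le_integral_norm _) (wt_nonneg ξ)).trans ?_
    rw [← integral_const_mul]
    refine integral_mono_of_nonneg (.of_forall fun η => mul_nonneg (wt_nonneg ξ) (norm_nonneg _))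
      ((Integrable.add c1 c2).const_mul _) (.of_forall fun η => ?_)
    have := mul_le_mul_of_nonneg_right (wt_sub (m := m) (R := R) ξ η)
      (norm_nonneg (𝓕 g η * 𝓕 h (ξ - η)))
    refine this.trans (le_of_eq ?_)
    simp only [norm_mul, ContinuousLinearMap.mul_apply']
    ring
  · rw [integral_const_mul]
    simp only [Pi.add_apply]
    rw [integral_add i1 i2, integral_convolution _ a1 b0, integral_convolution _ a0 b1]
    rfl

theorem mom_of_N (a : Cc 3 g) {C : ℝ} (hC : ∀ R, N m R g ≤ C) :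
    Integrable fun ξ => ‖ξ‖ ^ m * ‖𝓕 g ξ‖ := by
  have c : Continuous fun ξ : ℂ => ‖ξ‖ ^ m * ‖𝓕 g ξ‖ := by have := four_cont a.int; fun_prop
  refine (aecover_closedBall (x := (0 : ℂ)) tendsto_natCast_atTop_atTop
    ).integrable_of_integral_bounded_of_nonneg_ae C
    (fun R => c.continuousOn.integrableOn_compact (isCompact_closedBall _ _))
    (.of_forall fun ξ => by positivity) (.of_forall fun R => le_trans ?_ (hC R))
  refine le_trans (le_of_eq (setIntegral_congr_fun measurableSet_closedBall fun ξ hξ => ?_))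
    (setIntegral_le_integral a.wint (.of_forall fun ξ => mul_nonneg (wt_nonneg ξ) (norm_nonneg _)))
  simp only [wt, min_eq_left (mem_closedBall_zero_iff.1 hξ)]

theorem smooth_of_mom (a : Cc 3 g) (hm : ∀ m : ℕ, Integrable fun ξ => ‖ξ‖ ^ m * ‖𝓕 g ξ‖) :
    ContDiff ℝ ∞ g := by
  rw [← a.1.continuous.fourierInv_fourier_eq a.int a.fint, funext (Real.fourierInv_eq_fourier_neg _)]
  exact (Real.contDiff_fourier fun m _ => hm m).comp contDiff_neg

end Pool.Agent.Lib.S38.T64
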