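import Pool.Agent.Lib.S38.Pole1

/-! Localisation with small Wiener norm, and the calculus of top order estimates. -/

set_option autoImplicit false

open Complex Filter Topology MeasureTheory
open scoped Real ContDiff FourierTransform RealInnerProductSpace

namespace Pool.Agent.Lib.S38.T64

variable {n m : ℕ} {f g h k : ℂ → ℂ} {a b c : ℝ}

theorem nn_scale (g : ℂ → ℂ) {e : ℝ} (he : 0 < e) : nn (fun x => g (e⁻¹ • x)) = nn g := by
  have h1 (ξ : ℂ) : 𝓕 (fun x => g (e⁻¹ • x)) ξ = e ^ 2 • 𝓕 g (e • ξ) := by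
    have := Measure.integral_comp_inv_smul_of_nonneg volume
      (fun y : ℂ => 𝐞 (-⟪y, e • ξ⟫) • g y) he.le
    rw [finrank_real_complex] at this
    rw [Real.fourier_eq, Real.fourier_eq, ← this]
    simp only [real_inner_smul_left, real_inner_smul_right, mul_inv_cancel_left₀ he.ne']
  have h2 := Measure.integral_comp_smul_of_nonneg volume (fun ξ => ‖𝓕 g ξ‖) e (hR := he.le)
  rw [finrank_real_complex] at h2
  simp only [nn, h1, norm_smul, integral_const_mul, h2, smul_eq_mul]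
  rw [Real.norm_of_nonneg (by positivity), mul_inv_cancel_left₀ (by positivity)]

theorem joint : ∀ (n : ℕ) {G : ℝ → ℂ → ℂ}, ContDiff ℝ n G.uncurry →
    Continuous (Function.uncurry fun e => Dop^[n] (G e))
  | 0, _, h => h.continuous
  | n + 1, G, h => by
    have d : ContDiff ℝ n fun p : ℝ × ℂ => fderiv ℝ (G p.1) p.2 :=
      ContDiff.fderiv (f := fun p : ℝ × ℂ => G p.1) (m := (n + 1 : ℕ))
        (h.comp (contDiff_fst.fst.prodMk contDiff_snd)) contDiff_snd (by norm_cast)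
    exact joint n (G := fun e => Dop (G e))
      ((d.clm_apply contDiff_const).add (contDiff_const.mul (d.clm_apply contDiff_const)))

theorem dv_congr {y : ℂ} (e : g =ᶠ[𝓝 y] h) (v : ℂ) : dv v g =ᶠ[𝓝 y] dv v h :=
  (e.fderiv (𝕜 := ℝ)).mono fun z hz => by simp only [dv, hz]

theorem Dop_zero : ∀ (n : ℕ) {g : ℂ → ℂ} {y : ℂ}, g =ᶠ[𝓝 y] 0 → Dop^[n] g y = 0
  | 0, _, _, e => e.eq_of_nhds
  | n + 1, g, y, e => Dop_zero n (g := Dop g) (by
      filter_upwards [dv_congr e 1, dv_congr e I] with z h1 h2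
      rw [Dop, h1, h2]
      simp [dv])

theorem small (hg : ContDiff ℝ 3 g) (h0 : g 0 = 0) {δ : ℝ} (hδ : 0 < δ) : ∃ χ : ℂ → ℂ,
    ContDiff ℝ ∞ χ ∧ χ =ᶠ[𝓝 0] 1 ∧ nn (fun z => χ z * g z) ≤ δ := by
  let β : ContDiffBump (0 : ℂ) := ⟨1, 2, one_pos, one_lt_two⟩
  have hβ {j : ℕ∞} : ContDiff ℝ j fun y => (β y : ℂ) := ofRealCLM.contDiff.comp β.contDiff
  let G : ℝ → ℂ → ℂ := fun e y => β y * g (e • y)
  have hG : ContDiff ℝ 3 G.uncurry :=
    ((hβ (j := 3)).comp contDiff_snd).mul (hg.comp (contDiff_fst.smul contDiff_snd))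
  have t (j : ℕ) (hj : j ≤ 3) : Tendsto (fun e => ∫ y, ‖Dop^[j] (G e) y‖) (𝓝 0) (𝓝 0) := by
    have := continuousOn_integral_of_compact_support (μ := volume) (s := Set.univ)
      (f := fun e y => ‖Dop^[j] (G e) y‖) (isCompact_closedBall (0 : ℂ) 2)
      (joint j (hG.of_le (by exact_mod_cast hj))).norm.continuousOn fun e y _ hy => by
        rw [Dop_zero j, norm_zero]
        filter_upwards [Metric.isClosed_closedBall.isOpen_compl.mem_nhds hy] with z hz
        have : β z = 0 := β.zero_of_le_dist (le_of_not_ge hz)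
        simp [G, this]
    have e := (continuousOn_univ.1 this).tendsto 0
    have z (y : ℂ) : Dop^[j] (G 0) y = 0 := Dop_zero j (.of_forall fun z => by simp [G, h0])
    simpa [z] using e
  have t2 := (((t 0 (by simp)).add (t 3 le_rfl)).const_mul (2 ^ (0 + 2))).mul_const
    (∫ ξ : ℂ, (1 + ‖ξ‖) ^ (-3 : ℝ))
  rw [add_zero, mul_zero, zero_mul] at t2
  obtain ⟨e, he, he0⟩ := (((t2.eventually (ge_mem_nhds hδ)).filter_mono nhdsWithin_le_nhds).and
    (self_mem_nhdsWithin (s := Set.Ioi 0))).exists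
  have he0 : 0 < e := he0
  have c : Cc (0 + 3) (G e) := ⟨hG.comp (contDiff_const.prodMk contDiff_id),
    (β.hasCompactSupport.comp_left (g := ofReal) rfl).mul_right⟩
  refine ⟨fun x => β (e⁻¹ • x), hβ.comp (contDiff_id.const_smul _), ?_, le_trans ?_ he⟩
  · have : Tendsto (fun x : ℂ => e⁻¹ • x) (𝓝 0) (𝓝 0) := by
      simpa using (continuous_const_smul (T := ℂ) e⁻¹).tendsto 0
    filter_upwards [this.eventually β.eventuallyEq_one] with z hz
    simp only [hz, Pi.one_apply, ofReal_one]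
  · have : (fun z => (β (e⁻¹ • z) : ℂ) * g z) = fun z => G e (e⁻¹ • z) := by
      funext z; simp only [G, smul_inv_smul₀ he0.ne']
    rw [this, nn_scale _ he0, ← integral_const_mul]
    exact integral_mono_of_nonneg (.of_forall fun _ => norm_nonneg _) (int_jap.const_mul _)
      (.of_forall fun ξ => by simpa using decay' c ξ)

def Z (n : ℕ) (g : ℂ → ℂ) : Prop := Cc n g ∧ ∀ z ≠ 0, ContDiffAt ℝ ∞ g z

theorem Z.mono (x : Z n g) (e : m ≤ n) : Z m g := ⟨x.1.mono e, x.2⟩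

theorem Z.add (x : Z n g) (y : Z n h) : Z n fun z => g z + h z :=
  ⟨x.1.add y.1, fun z hz => (x.2 z hz).add (y.2 z hz)⟩

theorem Z.mul (x : Z n g) (y : Z n h) : Z n fun z => g z * h z :=
  ⟨x.1.mul y.1, fun z hz => (x.2 z hz).mul (y.2 z hz)⟩

theorem Z.cmul (x : Z n g) (c : ℂ) : Z n fun z => c * g z :=
  ⟨x.1.cmul c, fun z hz => contDiffAt_const.mul (x.2 z hz)⟩

theorem Z.dv (x : Z (n + 1) g) (v : ℂ) : Z n (dv v g) :=
  ⟨x.1.dv v, fun z hz => ((x.2 z hz).fderiv_right (m := ∞) (by simp)).clm_apply contDiffAt_const⟩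

theorem Z.loc (x : Z 3 g) (h0 : g 0 = 0) {δ : ℝ} (hδ : 0 < δ) :
    ∃ h, Z 3 h ∧ h =ᶠ[𝓝 0] g ∧ nn h ≤ δ := by
  obtain ⟨χ, h1, h2, h3⟩ := small x.1.1 h0 hδ
  exact ⟨_, ⟨⟨(h1.of_le (by norm_cast)).mul x.1.1, x.1.2.mul_left⟩,
    fun z hz => h1.contDiffAt.mul (x.2 z hz)⟩, h2.mono fun z hz => by simp [hz], h3⟩

theorem cut (h1 : ContDiffAt ℝ n f 0) (h2 : ∀ᶠ z in 𝓝[≠] 0, ContDiffAt ℝ ∞ f z) :
    ∃ g, Z n g ∧ g =ᶠ[𝓝 0] f := by
  obtain ⟨r, hr, h3⟩ := Metric.eventually_nhds_iff.1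
    ((h1.eventually (by simp)).and (eventually_nhdsWithin_iff.1 h2))
  let β : ContDiffBump (0 : ℂ) := ⟨r / 4, r / 2, by positivity, by linarith⟩
  have hβ {j : ℕ∞} : ContDiff ℝ j fun y => (β y : ℂ) := ofRealCLM.contDiff.comp β.contDiff
  have o (z : ℂ) (hz : ¬dist z 0 < r) {j : WithTop ℕ∞} :
      ContDiffAt ℝ j (fun y => (β y : ℂ) * f y) z := by
    refine (contDiffAt_const (c := 0)).congr_of_eventuallyEq ?_
    filter_upwards [(isOpen_lt continuous_const (continuous_id.dist continuous_const)).mem_nhds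
      (show r / 2 < dist z 0 by linarith)] with y hy
    rw [β.zero_of_le_dist (x := y) (le_of_lt hy), ofReal_zero, zero_mul]
  refine ⟨fun y => β y * f y, ⟨⟨contDiff_iff_contDiffAt.2 fun z => ?_,
    (β.hasCompactSupport.comp_left (g := ofReal) rfl).mul_right⟩, fun z hz => ?_⟩,
    β.eventuallyEq_one.mono fun z hz => by simp [hz]⟩
  · by_cases hz : dist z 0 < r
    · exact (hβ (j := n)).contDiffAt.mul (h3 hz).1
    · exact o z hz
  · by_cases hz' : dist z 0 < r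
    · exact hβ.contDiffAt.mul ((h3 hz').2 hz)
    · exact o z hz'

def T (m : ℕ) (f : ℂ → ℂ) (a : ℝ) (g : ℂ → ℂ) : Prop :=
  Z 3 g ∧ ∃ C, ∀ R, N m R g ≤ a * N m R f + C

theorem T.self (x : Z 3 f) : T m f 1 f := ⟨x, 0, fun _ => by simp⟩

theorem T.zero (x : T m f 0 g) : T m k 0 g := by simpa [T] using x

theorem T.absorb (x : T m f a f) (ha : a ≤ 1 / 2) : T m k 0 f := by
  obtain ⟨z, C, hC⟩ := x
  refine ⟨z, 2 * C, fun R => ?_⟩
  nlinarith [hC R, N_nonneg (m := m) (R := R) (g := f)]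

theorem T.add (x : T m f a g) (y : T m f b h) : T m f (a + b) fun z => g z + h z := by
  obtain ⟨z, C, hC⟩ := x
  obtain ⟨w, D, hD⟩ := y
  exact ⟨z.add w, C + D, fun R => (N_add z.1 w.1).trans (by linarith [hC R, hD R])⟩

theorem T.cmul (x : T m f a g) (c : ℂ) : T m f (‖c‖ * a) fun z => c * g z := by
  obtain ⟨z, C, hC⟩ := x
  refine ⟨z.cmul c, ‖c‖ * C, fun R => ?_⟩
  rw [N_cmul]
  nlinarith [mul_le_mul_of_nonneg_left (hC R) (norm_nonneg c)]

theorem T.mul (x : T m f a g) (y : T m f b h) (e : 2 ^ (m - 1) * (a * nn h + nn g * b) ≤ c) :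
    T m f c fun z => g z * h z := by
  obtain ⟨z, C, hC⟩ := x
  obtain ⟨w, D, hD⟩ := y
  refine ⟨z.mul w, 2 ^ (m - 1) * (C * nn h + nn g * D), fun R => (N_mul z.1 w.1).trans ?_⟩
  have h1 := mul_le_mul_of_nonneg_right e (N_nonneg (m := m) (R := R) (g := f))
  have h2 := mul_le_mul_of_nonneg_right (hC R) (nn_nonneg (g := h))
  have h3 := mul_le_mul_of_nonneg_left (hD R) (nn_nonneg (g := g))
  have h4 := mul_le_mul_of_nonneg_left (add_le_add h2 h3) (show (0 : ℝ) ≤ 2 ^ (m - 1) by positivity)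
  linarith

theorem T.mul0 (x : T m f 0 g) (y : T m f 0 h) : T m f 0 fun z => g z * h z := x.mul y (by simp)

theorem T.of_mom (x : Z 3 g) {F : ℂ → ℝ} (hF : Integrable F) (e : ∀ ξ, ‖ξ‖ ^ m * ‖𝓕 g ξ‖ ≤ F ξ) :
    T m f 0 g :=
  ⟨x, ∫ ξ, F ξ, fun _ => by
    simpa using N_le hF fun ξ => (mul_le_mul_of_nonneg_right (wt_le ξ) (norm_nonneg _)).trans (e ξ)⟩

theorem T.congr (x : T m f a h) (z : Z 3 g) {c : ℂ} (e : ∀ᶠ w in 𝓝 0, g w = h w + c) :
    T m f a g := by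
  have w := z.add (x.1.cmul (-1))
  have s : Cc (m + 3) fun w => g w + -1 * h w := by
    refine ⟨contDiff_iff_contDiffAt.2 fun y => ?_, w.1.2⟩
    rcases eq_or_ne y 0 with rfl | hy
    · exact (contDiffAt_const (c := c)).congr_of_eventuallyEq (e.mono fun w hw => by simp [hw])
    · exact contDiffAt_infty.1 (w.2 y hy) _
  simpa using x.add (T.of_mom w s.mom fun _ => le_rfl)

end Pool.Agent.Lib.S38.T64
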