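import Pool.Agent.Lib.S38.Wt
import Pool.Agent.Lib.CM64.Cl

/-! All derivatives of the solution decay exponentially on the half cylinder. -/

set_option autoImplicit false

open Complex Filter Topology Set
open scoped Real

namespace Pool.Agent.Lib.S38

open Pool.Agent.Lib.MP_28d281_gt Pool.Agent.Lib.CM64

noncomputable def W0 (δ : ℝ) (F : Al) : ℤ → ℝ → ℝ := wr fun n => m0 n (F n) (δ * mu F * ind n)
noncomputable def W1 (δ : ℝ) (F : Al) : ℤ → ℝ → ℝ := wr fun n => m1 n (F n) (δ * mu F * ind n)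
noncomputable def W2 (δ : ℝ) (F : Al) : ℤ → ℝ → ℝ := wr fun n => m2 n (F n) (δ * mu F * ind n)

variable {δ κ : ℝ} {F : Al}

theorem sb_iter : ∀ (i : ℕ) {g : ℤ → ℝ → ℝ}, SBp (i + 1) g → SB (fr^[i] g)
  | 0, _, h => h.sb
  | i + 1, _, h => sb_iter i h.fr

theorem sb_all {K : ℝ} (hF : Wl K F) (δ : ℝ) (i : ℕ) :
    SB (fr^[i] (W0 δ F)) ∧ SB (fr^[i] (W1 δ F)) ∧ SB (fr^[i] (W2 δ F)) := by
  obtain ⟨C, hC, hp⟩ := p_bdd
  have f0 : ∀ n, 1 ≤ 1 + fa n := fun n => by linarith [fa_nonneg n]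
  have csum : Summable fun n => (1 + fa n) ^ i *
      (6 * ‖F n‖ + 4 * C * (fa n ^ 2 * |δ * mu F * ind n| + 2 * ‖F n‖)) := by
    have a : Summable fun n => (1 + fa n) ^ i * (4 * C * (fa n ^ 2 * |δ * mu F * ind n|)) := by
      refine summable_of_ne_finset_zero (s := {1, -1}) fun n hn => ?_
      simp only [Finset.mem_insert, Finset.mem_singleton] at hn
      simp [ind, hn]
    exact (((hF.summ_pow i).mul_left (6 + 8 * C)).add a).congr fun n => by ring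
  have cpos : ∀ n, 0 ≤ (1 + fa n) ^ i *
      (6 * ‖F n‖ + 4 * C * (fa n ^ 2 * |δ * mu F * ind n| + 2 * ‖F n‖)) := fun n => by
    have := f0 n
    positivity
  refine ⟨sb_iter i (sbp_wr csum cpos fun n s => ?_), sb_iter i (sbp_wr csum cpos fun n s => ?_),
    sb_iter i (sbp_wr csum cpos fun n s => ?_)⟩ <;>
    refine mul_le_mul_of_nonneg_left ?_ (pow_nonneg (by linarith [f0 n]) _)
  · exact (le_mul_of_one_le_left (abs_nonneg _) (one_le_pow₀ (f0 n))).trans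
      (m_bound hC hp n _ _ s).1
  · exact (le_mul_of_one_le_left (abs_nonneg _) (f0 n)).trans (m_bound hC hp n _ _ s).2.1
  · exact (m_bound hC hp n _ _ s).2.2

theorem it_deriv : ∀ (i : ℕ) {g g1 : ℤ → ℝ → ℝ}, (∀ n s, HasDerivAt (g n) (g1 n s) s) →
    ∀ n s, HasDerivAt (fr^[i] g n) (fr^[i] g1 n s) s
  | 0, _, _, h => h
  | i + 1, _, _, h => it_deriv i (fr_deriv h)

theorem d0 (δ : ℝ) (F : Al) : ∀ n s, HasDerivAt (W0 δ F n) (W1 δ F n s) s :=
  wr_deriv fun n s => m0_deriv n _ _ s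

theorem d1 (δ : ℝ) (F : Al) : ∀ n s, HasDerivAt (W1 δ F n) (W2 δ F n s) s :=
  wr_deriv fun n s => m1_deriv n _ _ s

theorem ser_th {g : ℤ → ℝ → ℝ} (h : SB g) (h2 : SB (fr g)) (s θ : ℝ) :
    HasDerivAt (fun θ => ser g (pt s θ)) (I * ser (fr g) (pt s θ)) θ := by
  obtain ⟨c, c1, -, c3⟩ := h2
  rw [ser, ← tsum_mul_left]
  refine hasDerivAt_tsum (g := fun n θ => st g n (pt s θ))
    (g' := fun n θ => I * st (fr g) n (pt s θ)) (c1.mul_right (Real.exp (-16 * s)))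
    (fun n y => ?_) (fun n y => ?_) (h.summ (pt s θ)) θ
  · simp only [st, pt_re, pt_im, fr]
    refine ((ch_deriv n y).const_mul _).congr_deriv ?_
    push_cast
    ring
  · rw [norm_mul, norm_I, one_mul, norm_st, pt_re, neg_neg]
    exact c3 n s

theorem pt_eq (u : ℂ) : pt (-u.re) u.im = u := by simp [pt]

theorem pt_mem {s : ℝ} (hs : 0 ≤ s) (θ : ℝ) : pt s θ ∈ H := by simpa [H] using hs

theorem der_th {g : ℤ → ℝ → ℝ} {f1 f2 : ℂ → ℂ} (h : SB g) (h2 : SB (fr g))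
    (d : Der (ser g) f1 f2) : EqOn (ser (fr g)) (fun u => -I * f2 u) H := fun u hu => by
  have hs : 0 ≤ -u.re := neg_nonneg.mpr hu
  have a := (d _ (pt_mem hs u.im)).comp_hasDerivAt u.im (pt_dt (-u.re) u.im)
    (Eventually.of_forall fun θ => pt_mem hs θ)
  have b := a.unique (ser_th h h2 _ _)
  rw [pt_eq] at b
  simp only [dd_apply, I_re, I_im, ofReal_zero, ofReal_one, zero_mul, zero_add, one_mul] at b
  beta_reduce
  rw [b, ← mul_assoc, neg_mul, I_mul_I, neg_neg, one_mul]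

theorem cl0_ser {g : ℤ → ℝ → ℝ} (h : SB g) (hc : ∀ n, Continuous (g n)) : Cl0 16 (ser g) := by
  obtain ⟨a, b, C, c, d⟩ := ser_cls0 h hc
  exact ⟨a.continuousOn, fun u _ n => b.int_mul n u, C, c, fun u _ => d u⟩

theorem evs (δ : ℝ) (F : Al) {s : ℝ} (hs : 0 ≤ s) (θ : ℝ) :
    ser (W0 δ F) (pt s θ) = ev (cV δ F) s θ ∧ ser (W1 δ F) (pt s θ) = ev (cS δ F) s θ ∧
    ser (fr (W0 δ F)) (pt s θ) = ev (cT δ F) s θ ∧ ser (fr (W1 δ F)) (pt s θ) = ev (cU δ F) s θ ∧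
    ser (fr (fr (W0 δ F))) (pt s θ) = ev (cQ δ F) s θ ∧
    ser (W2 δ F) (pt s θ) = ev (F + cQ δ F) s θ := by
  refine ⟨ser_eq_ev (fun n => ?_) θ, ser_eq_ev (fun n => ?_) θ, ser_eq_ev (fun n => ?_) θ,
    ser_eq_ev (fun n => ?_) θ, ser_eq_ev (fun n => ?_) θ, ser_eq_ev (fun n => ?_) θ⟩ <;>
  simp only [fr, W0, W1, W2, wr, m0_eq _ _ _ hs, m1_eq _ _ _ hs, m2_eq _ _ _ hs, cV, cS, cT, cU, cQ,
    aff_apply, _root_.smul_apply, BoundedContinuousFunction.smul_apply, smul_eq_mul, fa_sq,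
    lp.coeFn_add, Pi.add_apply, BoundedContinuousFunction.add_apply] <;> ring

theorem solve {M B A W : ℂ} (hM : ‖M‖ ≤ 1 / 100) (hB : ‖B‖ ≤ 1 / 100) (hA : ‖A‖ ≤ 1 / 100)
    (hW : W ^ 2 = 1 + M) (hW1 : 1 ≤ ‖W + 1‖) (h : (2 + A) ^ 2 = 4 * (1 + B) ^ 2 * (1 + M) ^ 3) :
    2 + A = 2 * (1 + B) * W ^ 3 := by
  have e : (2 + A) ^ 2 = (2 * (1 + B) * W ^ 3) ^ 2 := by rw [h, ← hW]; ring
  refine (sq_eq_sq_iff_eq_or_eq_neg.mp e).resolve_right fun h' => ?_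
  have x1 : ‖W - 1‖ ≤ 1 / 100 := by
    have : (W - 1) * (W + 1) = M := by linear_combination hW
    rw [← this, norm_mul] at hM
    nlinarith [norm_nonneg (W - 1)]
  have x2 : ‖W‖ ≤ 101 / 100 := by
    have := norm_add_le (W - 1) 1
    rw [sub_add_cancel, norm_one] at this
    linarith
  have e2 : (4 : ℂ) = -A - 2 * (B * W ^ 3 + (W - 1) * (W ^ 2 + W + 1)) := by linear_combination h'
  have x3 : ‖(4 : ℂ)‖ ≤ 1 / 100 + 2 * (1 / 100 * (101 / 100) ^ 3 +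
      1 / 100 * ((101 / 100) ^ 2 + 101 / 100 + 1)) := by
    rw [e2]
    refine (norm_sub_le _ _).trans ?_
    rw [norm_neg, norm_mul, Complex.norm_two]
    gcongr
    refine (norm_add_le _ _).trans ?_
    rw [norm_mul, norm_mul, norm_pow]
    gcongr
    refine norm_add₃_le.trans ?_
    rw [norm_pow, norm_one]
    gcongr
  norm_num at x3

/-- the generators -/
def Bs (δ κ : ℝ) (F : Al) (γ : ℝ) (f : ℂ → ℂ) : Prop :=
  (γ = 16 ∧ ∃ i, f = ser (fr^[i] (W0 δ F)) ∨ f = ser (fr^[i] (W1 δ F))) ∨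
    (γ = 0 ∧ f = fun u => (ta κ (-u.re) : ℂ))

theorem gen_W2 (hδ : 0 ≤ δ) (hδ' : δ ≤ 1 / 10 ^ 13) (hF : F ∈ SS) (hfix : Phi δ (taB κ) F = F) :
    Gen (Bs δ κ F) 16 (ser (W2 δ F)) := by
  have hw := wl_fix hδ hδ' (norm_taB κ) hF hfix
  obtain ⟨g1, g2, g3, -⟩ := gw_all hδ hδ' (norm_taB κ)
  have t : Gen (Bs δ κ F) 0 _ := .base (.inr ⟨rfl, rfl⟩)
  have V : Gen (Bs δ κ F) 16 (ser (W0 δ F)) := .base (.inl ⟨rfl, 0, .inl rfl⟩)
  have P : Gen (Bs δ κ F) 16 (ser (W1 δ F)) := .base (.inl ⟨rfl, 0, .inr rfl⟩)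
  have T : Gen (Bs δ κ F) 16 (ser (fr (W0 δ F))) := .base (.inl ⟨rfl, 1, .inl rfl⟩)
  have U : Gen (Bs δ κ F) 16 (ser (fr (W1 δ F))) := .base (.inl ⟨rfl, 1, .inr rfl⟩)
  have Q : Gen (Bs δ κ F) 16 (ser (fr (fr (W0 δ F)))) := .base (.inl ⟨rfl, 2, .inl rfl⟩)
  have tm : ∀ {f}, Gen (Bs δ κ F) 16 f → Gen (Bs δ κ F) 16 fun u => ta κ (-u.re) * f u :=
    fun h => t.mul h (by norm_num)
  have mm : ∀ {f g}, Gen (Bs δ κ F) 16 f → Gen (Bs δ κ F) 16 g →
      Gen (Bs δ κ F) 16 fun u => f u * g u := fun h k => h.mul k (by norm_num)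
  have one : ∀ {f}, Gen (Bs δ κ F) 16 f → Gen (Bs δ κ F) 0 fun u => 1 + f u := fun h =>
    ((Gen.const 1).add ((Gen.const 1).mul h (by norm_num))).congr fun u _ => by simp
  have hs : ∀ u ∈ H, 0 ≤ -u.re := fun u hu => neg_nonneg.mpr hu
  have ee := fun u hu => evs δ F (hs u hu) (im u)
  simp only [pt_eq] at ee
  have tb : ∀ s, taB κ s = ta κ s := fun s => rfl
  have M : Gen (Bs δ κ F) 16 fun u => ev (nM δ (taB κ) F) (-u.re) u.im :=
    ((((((tm (tm V)).cmul 2).add (tm (tm (mm V V)))).add ((tm P).cmul (-2))).add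
      ((tm (mm V P)).cmul (-2))).add (mm P P)).congr fun u hu => by
      obtain ⟨e0, e1, -⟩ := ee u hu
      simp only [nM, ev_add, ev_smul, ev_conv _ _ (hs u hu), ev_mulB, e0, e1, tb]
      push_cast
      ring
  have B : Gen (Bs δ κ F) 16 fun u => ev (nB δ F) (-u.re) u.im :=
    (V.add (Q.cmul (-1))).congr fun u hu => by
      obtain ⟨e0, -, -, -, e4, -⟩ := ee u hu
      simp only [nB, ev_add, ev_smul, e0, e4]
      push_cast
      ring
  have A := U.add ((tm T).cmul (-1))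
  have n1 : ∀ u ∈ H, ‖ev (nM δ (taB κ) F) (-u.re) u.im‖ ≤ 1 / 100 := fun u hu =>
    (norm_ev _ (hs u hu) _).trans ((g1 F hF hw).norm_le.trans (by norm_num [rho]))
  have n2 : ∀ u ∈ H, ‖ev (nB δ F) (-u.re) u.im‖ ≤ 1 / 100 := fun u hu =>
    (norm_ev _ (hs u hu) _).trans ((g2 F hF hw).norm_le.trans (by norm_num [rho]))
  have n3 : ∀ u ∈ H, ‖ev (nAl δ (taB κ) F) (-u.re) u.im‖ ≤ 1 / 100 := fun u hu =>
    (norm_ev _ (hs u hu) _).trans ((g3 F hF hw).norm_le.trans (by norm_num [rho]))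
  have re1 : ∀ {z : ℂ}, ‖z‖ ≤ 1 / 100 → 1 / 2 ≤ (1 + z).re := fun h => by
    have := (abs_le.mp ((abs_re_le_norm _).trans h)).1
    rw [add_re, one_re]
    linarith
  have W := (one M).sqrt (1 / 2) (by norm_num) fun u hu => re1 (n1 u hu)
  have w1 : ∀ z : ℂ, 1 ≤ ‖z ^ (2⁻¹ : ℂ) + 1‖ := fun z => by
    refine le_trans ?_ (re_le_norm _)
    rw [add_re, one_re, cpow_inv_two_re]
    linarith [Real.sqrt_nonneg ((‖z‖ + z.re) / 2)]
  have iW := (W.add (.const 1)).inv 1 one_pos fun u _ => w1 _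
  have iB := (one B).inv (1 / 2) (by norm_num) fun u hu => (re1 (n2 u hu)).trans (re_le_norm _)
  refine ((V.add (((M.mul iW (γ'' := 16) (by norm_num)).mul (((W.mul W (γ'' := 0)
    (by norm_num)).add W).add (.const 1)) (by norm_num)).cmul (-2))).add
    (((M.add ((mm A A).cmul (-1))).add (B.cmul (-1))).mul iB (by norm_num))).congr fun u hu => ?_
  obtain ⟨e0, e1, e2, e3, e4, e5⟩ := ee u hu
  have h := pde_of_fix hfix _ (hs u hu) u.im
  have b0 : 1 + ev (nB δ F) (-u.re) u.im ≠ 0 := fun e => by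
    have := re1 (n2 u hu)
    rw [e, zero_re] at this
    linarith
  have b1 : (1 + ev (nM δ (taB κ) F) (-u.re) u.im) ^ (2⁻¹ : ℂ) + 1 ≠ 0 :=
    norm_pos_iff.mp (one_pos.trans_le (w1 _))
  have b2 := cpow_nat_inv_pow (1 + ev (nM δ (taB κ) F) (-u.re) u.im) two_ne_zero
  rw [Nat.cast_ofNat] at b2
  have k := solve (n1 u hu) (n2 u hu) (n3 u hu) b2 (w1 _) (by
    simp only [nAl, nD, nB, nA2, nA, nM, ev_add, ev_smul, ev_conv _ _ (hs u hu), ev_mulB]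
    push_cast
    linear_combination h)
  simp only [nAl, nD, nA2, nA, ev_add, ev_smul, ev_conv _ _ (hs u hu), ev_mulB, tb] at k
  have eB : ev (cQ δ F) (-u.re) u.im = ev (cV δ F) (-u.re) u.im - ev (nB δ F) (-u.re) u.im := by
    simp only [nB, ev_add, ev_smul]
    push_cast
    ring
  simp only [e0, e2, e3, e5, ev_add, eB]
  generalize (1 + ev (nM δ (taB κ) F) (-u.re) u.im) ^ (2⁻¹ : ℂ) = w at *
  generalize ev (nB δ F) (-u.re) u.im = b at *
  have eM : ev (nM δ (taB κ) F) (-u.re) u.im = (w - 1) * (w + 1) := by linear_combination -b2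
  rw [eM] at k ⊢
  push_cast at k
  field_simp
  linear_combination -k

theorem s_ser (hδ : 0 ≤ δ) (hδ' : δ ≤ 1 / 10 ^ 13) (hF : F ∈ SS) (hfix : Phi δ (taB κ) F = F)
    (i : ℕ) : S 16 (ser (fr^[i] (W0 δ F))) := by
  have sb := sb_all (wl_fix hδ hδ' (norm_taB κ) hF hfix) δ
  have sb' : ∀ i, SB (fr (fr^[i] (W0 δ F))) ∧ SB (fr (fr^[i] (W1 δ F))) ∧
      SB (fr (fr^[i] (W2 δ F))) := fun i => by
    simpa only [Function.iterate_succ_apply'] using sb (i + 1)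
  have hB : ∀ γ f, Bs δ κ F γ f → Cl0 γ f ∧ ∃ f1 f2,
      ((∀ i, Gen (Bs δ κ F) 16 (ser (fr^[i] (W2 δ F)))) → Gen (Bs δ κ F) γ f1) ∧
      Gen (Bs δ κ F) γ f2 ∧ Der f f1 f2 := by
    rintro _ _ (⟨rfl, i, rfl | rfl⟩ | ⟨rfl, rfl⟩)
    · refine ⟨cl0_ser (sb i).1 (cont_of_deriv (it_deriv i (d0 δ F))), _, _, fun _ =>
        (Gen.base (.inl ⟨rfl, i, .inr rfl⟩)).cmul (-1),
        (Gen.base (.inl ⟨rfl, i + 1, .inl rfl⟩)).cmul I, fun u _ => ?_⟩
      simpa only [Function.iterate_succ_apply', neg_one_mul] using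
        (ser_fderiv (sb i).1 (sb i).2.1 (sb' i).1 (it_deriv i (d0 δ F)) u).hasFDerivWithinAt
    · refine ⟨cl0_ser (sb i).2.1 (cont_of_deriv (it_deriv i (d1 δ F))), _, _, fun q =>
        (q i).cmul (-1), (Gen.base (.inl ⟨rfl, i + 1, .inr rfl⟩)).cmul I, fun u _ => ?_⟩
      simpa only [Function.iterate_succ_apply', neg_one_mul] using
        (ser_fderiv (sb i).2.1 (sb i).2.2 (sb' i).2.1 (it_deriv i (d1 δ F)) u).hasFDerivWithinAt
    · have t : Gen (Bs δ κ F) 0 _ := .base (.inr ⟨rfl, rfl⟩)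
      have d : Der (fun u => (ta κ (-u.re) : ℂ))
          (fun u => ta κ (-u.re) * ta κ (-u.re) + -1) fun _ => 0 := fun u _ => by
        refine (((ta_deriv κ (-u.re)).ofReal_comp).hasFDerivAt.comp u
          (reCLM.hasFDerivAt (x := u)).neg).hasFDerivWithinAt.congr_fderiv ?_
        ext1 v
        simp [dd_apply, sg_sq]
        ring
      refine ⟨⟨fun u hu => (d u hu).continuousWithinAt, fun u _ n => by simp, 1, zero_le_one,
        fun u _ => by simpa using abs_ta κ _⟩, _, _,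
        fun _ => (t.mul t (by norm_num)).add (.const _), .zero _, d⟩
  have Q : ∀ i, Gen (Bs δ κ F) 16 (ser (fr^[i] (W2 δ F))) := fun i => by
    induction i with
    | zero => exact gen_W2 hδ hδ' hF hfix
    | succ i ih =>
      obtain ⟨f1, f2, -, a, d⟩ := ih.der fun γ f h => (hB γ f h).2
      rw [Function.iterate_succ_apply']
      exact (a.cmul (-I)).congr (der_th (sb i).2.2 (sb' i).2.2 d)
  refine (Gen.base (B := Bs δ κ F) (.inl ⟨rfl, i, .inl rfl⟩)).s fun γ f h => ?_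
  obtain ⟨a, f1, f2, b, c, d⟩ := hB γ f h
  exact ⟨a, f1, f2, b Q, c, d⟩

end Pool.Agent.Lib.S38
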