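import Pool.Agent.Lib.MP_28d281_gt.Geom

/-! Invariance of the normal, the mean curvature and the volume under a change of parameter. -/

set_option autoImplicit false

open Matrix Metric Complex Filter Topology MeasureTheory Set

namespace Pool.Agent.Lib.S38

open Pool.Agent.Lib.MP_28d281_gt

/-- the Jacobian determinant -/
noncomputable def jac (A : ℂ →L[ℝ] ℂ) : ℝ := (A 1).re * (A I).im - (A 1).im * (A I).re

theorem jac_eq (A : ℂ →L[ℝ] ℂ) : A.det = jac A := by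
  rw [ContinuousLinearMap.det, ← LinearMap.det_toMatrix basisOneI, Matrix.det_fin_two]
  simp [LinearMap.toMatrix_apply, jac, mul_comm]

variable {X : ℂ → Fin 3 → ℝ} {ψ : ℂ → ℂ}

theorem pd_comp (hX : ContDiff ℝ 2 X) (hψ : ContDiff ℝ 2 ψ) (v : ℂ) :
    pd (X ∘ ψ) v = fun z => fderiv ℝ X (ψ z) (fderiv ℝ ψ z v) := funext fun z => by
  rw [pd, fderiv_comp z (hX.differentiable (by norm_num) _) (hψ.differentiable (by norm_num) _)]
  rfl

theorem pd_pd_comp (hX : ContDiff ℝ 2 X) (hψ : ContDiff ℝ 2 ψ) (v w z : ℂ) : ∃ y : ℂ,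
    pd (pd (X ∘ ψ) v) w z = fderiv ℝ (fderiv ℝ X) (ψ z) (fderiv ℝ ψ z w) (fderiv ℝ ψ z v) +
      fderiv ℝ X (ψ z) y := by
  have h1 : HasFDerivAt ψ (fderiv ℝ ψ z) z := (hψ.differentiable (by norm_num) _).hasFDerivAt
  have h2 : HasFDerivAt (fderiv ℝ X) (fderiv ℝ (fderiv ℝ X) (ψ z)) (ψ z) :=
    ((hX.fderiv_right (m := 1) (by norm_num)).differentiable (by norm_num) _).hasFDerivAt
  have h3 : HasFDerivAt (fderiv ℝ ψ) (fderiv ℝ (fderiv ℝ ψ) z) z :=
    ((hψ.fderiv_right (m := 1) (by norm_num)).differentiable (by norm_num) _).hasFDerivAt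
  have h4 := ((h2.comp z h1).clm_apply (h3.clm_apply (hasFDerivAt_const v z))).fderiv
  refine ⟨fderiv ℝ (fderiv ℝ ψ) z w v, ?_⟩
  rw [pd_comp hX hψ, pd]
  refine (congrArg (fun L : ℂ →L[ℝ] Fin 3 → ℝ => L w) h4).trans ?_
  simp [add_comm]

theorem nrm_comp (hX : ContDiff ℝ 2 X) (hψ : ContDiff ℝ 2 ψ) (z : ℂ) :
    nrm (X ∘ ψ) z = jac (fderiv ℝ ψ z) • nrm X (ψ z) := by
  simp only [nrm, pd_comp hX hψ, jac]
  rw [lin_expand _ (fderiv ℝ ψ z 1), lin_expand _ (fderiv ℝ ψ z I)]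
  unfold pd
  generalize fderiv ℝ X (ψ z) 1 = X1
  generalize fderiv ℝ X (ψ z) I = X2
  ext i
  fin_cases i <;> simp [cross_apply] <;> ring

theorem numer_comp (hX : ContDiff ℝ 2 X) (hψ : ContDiff ℝ 2 ψ) (z : ℂ) :
    numer (X ∘ ψ) z = jac (fderiv ℝ ψ z) ^ 3 * numer X (ψ z) := by
  obtain ⟨a, ha⟩ := pd_pd_comp hX hψ I I z
  obtain ⟨b, hb⟩ := pd_pd_comp hX hψ 1 I z
  obtain ⟨c, hc⟩ := pd_pd_comp hX hψ 1 1 z
  rw [numer, ha, hb, hc, nrm_comp hX hψ]
  simp only [pd_comp hX hψ, bil_expand hX, numer, nrm, jac]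
  rw [lin_expand _ (fderiv ℝ ψ z 1), lin_expand _ (fderiv ℝ ψ z I), lin_expand _ a,
    lin_expand _ b, lin_expand _ c]
  generalize pd (pd X 1) 1 (ψ z) = X11
  generalize pd (pd X 1) I (ψ z) = X12
  generalize pd (pd X I) I (ψ z) = X22
  unfold pd
  generalize fderiv ℝ X (ψ z) 1 = X1
  generalize fderiv ℝ X (ψ z) I = X2
  generalize fderiv ℝ ψ z 1 = p
  generalize fderiv ℝ ψ z I = q
  simp [cross_apply, dotProduct, Fin.sum_univ_three]
  ring

theorem dot_pos {v : Fin 3 → ℝ} (h : v ≠ 0) : 0 < v ⬝ᵥ v :=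
  lt_of_le_of_ne (Finset.sum_nonneg fun _ _ => mul_self_nonneg _)
    fun e => h (dotProduct_self_eq_zero.mp e.symm)

theorem numer_eq {z : ℂ} (hn : nrm X z ≠ 0) :
    numer X z = 2 * meanCurv X z * √(nrm X z ⬝ᵥ nrm X z) ^ 3 := by
  have hs : 0 < √(nrm X z ⬝ᵥ nrm X z) := Real.sqrt_pos.mpr (dot_pos hn)
  rw [meanCurv_eq (dot_pos hn) (H := numer X z / (2 * √(nrm X z ⬝ᵥ nrm X z) ^ 3)) (by field_simp)]
  field_simp

theorem meanCurv_comp (hX : ContDiff ℝ 2 X) (hψ : ContDiff ℝ 2 ψ) {z : ℂ}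
    (hj : 0 < jac (fderiv ℝ ψ z)) (hn : nrm X (ψ z) ≠ 0) :
    meanCurv (X ∘ ψ) z = meanCurv X (ψ z) := by
  refine meanCurv_eq (dot_pos (by rw [nrm_comp hX hψ]; exact smul_ne_zero hj.ne' hn)) ?_
  rw [numer_comp hX hψ, nrm_comp hX hψ, numer_eq hn, smul_dotProduct, dotProduct_smul,
    smul_eq_mul, smul_eq_mul, ← mul_assoc (jac _) (jac _), Real.sqrt_mul (mul_self_nonneg _),
    Real.sqrt_mul_self hj.le]
  ring

theorem cmc_comp {C : Set ℂ} (h : IsCMCDisk X C) (hψ : ContDiff ℝ 2 ψ) (hi : Function.Injective ψ)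
    (hj : ∀ z, 0 < jac (fderiv ℝ ψ z)) (hb : ψ '' closedBall 0 1 = closedBall 0 1)
    (hs : ∀ z ∈ sphere (0 : ℂ) 1, ψ z = z) : IsCMCDisk (X ∘ ψ) C ∧ vol (X ∘ ψ) = vol X := by
  have hm : MapsTo ψ (closedBall 0 1) (closedBall 0 1) := fun z hz => hb ▸ mem_image_of_mem ψ hz
  obtain ⟨H, hH⟩ := h.cmc
  refine ⟨⟨h.smooth.comp hψ, h.inj.comp hi.injOn hm, fun z hz => ?_, ⟨H, fun z hz => ?_⟩, ?_⟩, ?_⟩
  · rw [nrm_comp h.smooth hψ]
    exact smul_ne_zero (hj z).ne' (h.imm _ (hm hz))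
  · rw [meanCurv_comp h.smooth hψ (hj z) (h.imm _ (hm hz)), hH _ (hm hz)]
  · rw [← h.bdry]
    exact image_congr fun z hz => by rw [Function.comp_apply, hs z hz]
  · unfold vol
    congr 1
    conv_rhs => rw [← hb]
    rw [integral_image_eq_integral_abs_det_fderiv_smul volume measurableSet_closedBall
      (fun z _ => (hψ.differentiable (by norm_num) z).hasFDerivAt.hasFDerivWithinAt) hi.injOn]
    refine setIntegral_congr_fun measurableSet_closedBall fun z _ => ?_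
    simp only [nrm_comp h.smooth hψ, jac_eq, abs_of_pos (hj z), dotProduct_smul,
      Function.comp_apply]

/-- the equation of a graph -/
theorem graph_eq {U : ℂ → ℝ} {a H : ℝ} (ha : 0 < a)
    (hU : X =ᶠ[𝓝 0] fun w => ![a * w.re, a * w.im, a * U w]) (h2 : ContDiffAt ℝ 2 U 0)
    (hH : ∀ᶠ z in 𝓝 (0 : ℂ), numer X z = 2 * H * √(nrm X z ⬝ᵥ nrm X z) ^ 3) :
    ∀ᶠ z in 𝓝 (0 : ℂ),
    (1 + fderiv ℝ U z 1 ^ 2) * fderiv ℝ (fun w => fderiv ℝ U w I) z I -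
      2 * fderiv ℝ U z 1 * fderiv ℝ U z I * fderiv ℝ (fun w => fderiv ℝ U w 1) z I +
      (1 + fderiv ℝ U z I ^ 2) * fderiv ℝ (fun w => fderiv ℝ U w 1) z 1 =
      2 * H * a * √(1 + fderiv ℝ U z 1 ^ 2 + fderiv ℝ U z I ^ 2) ^ 3 := by
  have d : ∀ {f : ℂ → ℝ} {z : ℂ} (α β : ℂ →L[ℝ] ℝ) (p q : ℝ), DifferentiableAt ℝ f z → ∀ v,
      fderiv ℝ (fun w => ![a * (α w + p), a * (β w + q), a * f w]) z v =
        ![a * α v, a * β v, a * fderiv ℝ f z v] := fun {f z} α β p q hf v => by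
    have : HasFDerivAt (fun w => ![a * (α w + p), a * (β w + q), a * f w])
        (ContinuousLinearMap.pi ![a • α, a • β, a • fderiv ℝ f z]) z :=
      hasFDerivAt_pi.mpr fun i => by
        fin_cases i
        exacts [(α.hasFDerivAt.add_const p).const_mul a, (β.hasFDerivAt.add_const q).const_mul a,
          hf.hasFDerivAt.const_mul a]
    rw [this.fderiv]
    ext i
    fin_cases i <;> simp
  have e2 := h2.eventually (by simp)
  have e1 : ∀ v, pd X v =ᶠ[𝓝 0] fun z => ![a * v.re, a * v.im, a * fderiv ℝ U z v] := fun v => by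
    filter_upwards [hU.eventuallyEq_nhds, e2] with z h1 h3
    rw [pd, h1.fderiv_eq]
    simpa using d reCLM imCLM 0 0 (h3.differentiableAt (by norm_num)) v
  have e3 : ∀ v w, ∀ᶠ z in 𝓝 (0 : ℂ), pd (pd X v) w z =
      ![0, 0, a * fderiv ℝ (fun w => fderiv ℝ U w v) z w] := fun v w => by
    filter_upwards [(e1 v).eventuallyEq_nhds, e2] with z h1 h3
    rw [pd, h1.fderiv_eq]
    simpa using d 0 0 v.re v.im (((h3.fderiv_right (m := 1) (by norm_num)).clm_apply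
      (contDiffAt_const (c := v))).differentiableAt (by norm_num)) w
  filter_upwards [hH, e1 1, e1 I, e3 1 1, e3 1 I, e3 I I] with z h a1 a2 b1 b2 b3
  rw [numer, nrm, a1, a2, b1, b2, b3] at h
  generalize fderiv ℝ U z 1 = p at *
  generalize fderiv ℝ U z I = q at *
  have e : crossProduct ![a * (1 : ℂ).re, a * (1 : ℂ).im, a * p] ![a * I.re, a * I.im, a * q] ⬝ᵥ
      crossProduct ![a * (1 : ℂ).re, a * (1 : ℂ).im, a * p] ![a * I.re, a * I.im, a * q] =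
      (a ^ 2) ^ 2 * (1 + p ^ 2 + q ^ 2) := by
    simp [cross_apply, dotProduct, Fin.sum_univ_three]
    ring
  rw [e, Real.sqrt_mul (sq_nonneg _), Real.sqrt_sq (sq_nonneg _)] at h
  simp [cross_apply, dotProduct, Fin.sum_univ_three] at h
  apply mul_left_cancel₀ (pow_ne_zero 5 ha.ne')
  linear_combination h

end Pool.Agent.Lib.S38
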