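import Pool.Agent.Lib.MP_28d281_gt.Sol2

/-! The fixed point has exponentially decaying modes. -/

set_option autoImplicit false

open Filter Topology Set

namespace Pool.Agent.Lib.S38

open Pool.Agent.Lib.MP_28d281_gt

noncomputable def om (n : ℤ) : ℝ := Real.exp (|(n : ℝ)| / 2)

theorem om_pos (n : ℤ) : 0 < om n := Real.exp_pos _

theorem om_le (n m : ℤ) : om n ≤ om m * om (n - m) := by
  unfold om
  rw [← Real.exp_add]
  apply Real.exp_le_exp.mpr
  have := abs_add_le (m : ℝ) ((n : ℝ) - m)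
  push_cast
  rw [add_sub_cancel] at this
  linarith

def Wl (K : ℝ) (F : Al) : Prop := ∀ s : Finset ℤ, ∑ n ∈ s, om n * ‖F n‖ ≤ K

theorem Wl.nonneg {K : ℝ} {F : Al} (h : Wl K F) : 0 ≤ K := by simpa using h ∅

theorem Wl.mono {K K' : ℝ} {F : Al} (h : Wl K F) (hK : K ≤ K') : Wl K' F :=
  fun s => (h s).trans hK

theorem Wl.summ {K : ℝ} {F : Al} (h : Wl K F) : Summable fun n => om n * ‖F n‖ :=
  summable_of_sum_le (fun n => mul_nonneg (om_pos n).le (norm_nonneg _)) h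

theorem Wl.lift {K : ℝ} {F : Al} (h : Wl K F) : ∃ F' : Al, ‖F'‖ ≤ K ∧ ∀ n, ‖F' n‖ = om n * ‖F n‖ := by
  have e : ∀ n, ‖om n • F n‖ = om n * ‖F n‖ := fun n => by
    rw [norm_smul, Real.norm_of_nonneg (om_pos n).le]
  refine ⟨mk1 (fun n => om n • F n) (by simpa only [e] using h.summ), ?_, e⟩
  rw [norm_eq]
  simp only [mk1_apply, e]
  exact h.summ.tsum_le_of_sum_le h

theorem Wl.norm_le {K : ℝ} {F : Al} (h : Wl K F) : ‖F‖ ≤ K := by
  rw [norm_eq]
  refine (MP_28d281_gt.summ F).tsum_le_of_sum_le fun s => le_trans (Finset.sum_le_sum fun n _ => ?_) (h s)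
  exact le_mul_of_one_le_left (norm_nonneg _) (Real.one_le_exp (by positivity))

theorem Wl.add {K K' : ℝ} {F G : Al} (h : Wl K F) (h' : Wl K' G) : Wl (K + K') (F + G) := fun s => by
  refine le_trans ?_ (add_le_add (h s) (h' s))
  rw [← Finset.sum_add_distrib]
  refine Finset.sum_le_sum fun n _ => ?_
  rw [← mul_add, lp.coeFn_add, Pi.add_apply]
  exact mul_le_mul_of_nonneg_left (norm_add_le _ _) (om_pos n).le

theorem Wl.of_le {K c : ℝ} {F G : Al} (h : Wl K F) (hc : 0 ≤ c) (hG : ∀ n, ‖G n‖ ≤ c * ‖F n‖) :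
    Wl (c * K) G := fun s => by
  refine le_trans ?_ (mul_le_mul_of_nonneg_left (h s) hc)
  rw [Finset.mul_sum]
  refine Finset.sum_le_sum fun n _ => ?_
  rw [mul_left_comm]
  exact mul_le_mul_of_nonneg_left (hG n) (om_pos n).le

theorem Wl.smul {K : ℝ} {F : Al} (h : Wl K F) (c : ℝ) : Wl (|c| * K) (c • F) :=
  h.of_le (abs_nonneg c) fun n => by rw [lp.coeFn_smul, Pi.smul_apply, norm_smul, Real.norm_eq_abs]

theorem Wl.conv {K K' : ℝ} {F G : Al} (h : Wl K F) (h' : Wl K' G) : Wl (K * K') (conv F G) :=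
  fun s => by
  obtain ⟨F', a1, a2⟩ := h.lift
  obtain ⟨G', b1, b2⟩ := h'.lift
  refine le_trans ?_ (mul_le_mul a1 b1 (norm_nonneg _) h.nonneg)
  rw [← tsum_pair]
  refine le_trans (Finset.sum_le_sum fun n _ => ?_) ((summ_pair F' G').prod.sum_le_tsum s
    fun n _ => tsum_nonneg fun m => by positivity)
  refine (mul_le_mul_of_nonneg_left (norm_tsum_ct F G n) (om_pos n).le).trans ?_
  rw [← tsum_mul_left]
  refine (((summ_pair F G).prod_factor n).mul_left _).tsum_le_tsum (fun m => ?_)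
    ((summ_pair F' G').prod_factor n)
  rw [a2, b2, mul_mul_mul_comm]
  exact mul_le_mul_of_nonneg_right (om_le n m) (by positivity)

theorem wl_hc (e : ℤ → ℝ) (h1 : |e 1| ≤ 4096) (h2 : |e (-1)| ≤ 4096) : Wl 16384 (hc e) := by
  have ho : Real.exp (1 / 2) ≤ 2 := by
    have := Real.exp_one_lt_d9
    have e2 : Real.exp (1 / 2) * Real.exp (1 / 2) = Real.exp 1 := by rw [← Real.exp_add]; norm_num
    nlinarith [Real.exp_pos (1 / 2)]
  have k : ∀ n : ℤ, |e n| ≤ 4096 → |(n : ℝ)| = 1 → om n * ‖hc e n‖ ≤ 8192 := fun n a b => by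
    have a1 : ‖hb n‖ ≤ 1 := by
      unfold hb
      split_ifs
      exacts [norm_expPlus _ _, by simp]
    rw [hc_apply, norm_smul, Real.norm_eq_abs, om, b]
    calc _ ≤ (2 : ℝ) * (4096 * 1) := by gcongr
      _ = _ := by norm_num
  intro s
  have z : ∀ n ∈ s ∪ {1, -1}, n ∉ ({1, -1} : Finset ℤ) → om n * ‖hc e n‖ = 0 := fun n _ hn => by
    simp only [Finset.mem_insert, Finset.mem_singleton] at hn
    simp [hc_apply, hb, hn]
  refine (Finset.sum_le_sum_of_subset_of_nonneg (t := s ∪ {1, -1}) Finset.subset_union_left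
    fun n _ _ => mul_nonneg (om_pos n).le (norm_nonneg _)).trans ?_
  rw [← Finset.sum_subset Finset.subset_union_right z, Finset.sum_pair (by decide)]
  linarith [k 1 h1 (by simp), k (-1) h2 (by simp)]

def Gw (K : ℝ) (Φ : Al → Al) : Prop := ∀ F ∈ SS, Wl rho F → Wl (K * rho) (Φ F)

theorem Gw.mono {K K' : ℝ} {Φ : Al → Al} (h : Gw K Φ) (hK : K ≤ K') : Gw K' Φ :=
  fun F a b => (h F a b).mono (mul_le_mul_of_nonneg_right hK rho_pos.le)

theorem gw_id : Gw 1 fun F => F := fun F _ b => by simpa using b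

theorem Gw.add {K K' : ℝ} {Φ Ψ : Al → Al} (h : Gw K Φ) (h' : Gw K' Ψ) :
    Gw (K + K') fun F => Φ F + Ψ F := fun F a b => by
  rw [add_mul]; exact (h F a b).add (h' F a b)

theorem Gw.smul {K : ℝ} {Φ : Al → Al} (h : Gw K Φ) (c : ℝ) : Gw (|c| * K) fun F => c • Φ F :=
  fun F a b => by rw [mul_assoc]; exact (h F a b).smul c

theorem Gw.mul {K K' : ℝ} {Φ Ψ : Al → Al} (h : Gw K Φ) (h' : Gw K' Ψ) :
    Gw (K * K' * rho) fun F => conv (Φ F) (Ψ F) := fun F a b =>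
  ((h F a b).conv (h' F a b)).mono (le_of_eq (by ring))

theorem Gw.mulB {K : ℝ} {Φ : Al → Al} (h : Gw K Φ) {τ : BC} (hτ : ‖τ‖ ≤ 1) :
    Gw K fun F => mulB τ (Φ F) := fun F a b => by
  rw [← one_mul (K * rho)]
  exact (h F a b).of_le zero_le_one fun n =>
    (norm_mul_le τ _).trans (mul_le_mul_of_nonneg_right hτ (norm_nonneg _))

variable {δ : ℝ} {τ : BC}

theorem gw_aff (L : ℤ → BC →L[ℝ] BC) (c : ℝ) (hc0 : 0 ≤ c) (h : ∀ n, Bd (L n) c) (e : ℤ → ℝ)
    (hδ : 0 ≤ δ) (hδ' : δ ≤ 1 / 10 ^ 13) (h1 : |e 1| ≤ 4096) (h2 : |e (-1)| ≤ 4096) :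
    Gw (c + 1 / 250) (aff L c h e δ) := fun F a b => by
  refine ((b.of_le (G := diag L c h F) hc0 fun n => h n _).add ((wl_hc e h1 h2).smul (δ * mu F))).mono ?_
  have a2 : |mu F| ≤ 2 := by
    have := abs_mu a
    rw [abs_le] at this ⊢
    constructor <;> linarith
  rw [abs_mul, abs_of_nonneg hδ, add_mul]
  have a3 : δ * |mu F| * 16384 ≤ 1 / 10 ^ 13 * 2 * 16384 := by gcongr
  have a5 : (1 : ℝ) / 10 ^ 13 * 2 * 16384 ≤ 1 / 250 * rho := by unfold rho; norm_num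
  linarith

theorem gw_all (hδ : 0 ≤ δ) (hδ' : δ ≤ 1 / 10 ^ 13) (hτ : ‖τ‖ ≤ 1) :
    Gw 1 (nM δ τ) ∧ Gw 5 (nB δ) ∧ Gw 12 (nAl δ τ) ∧ Gw 1 (Phi δ τ) := by
  have hV : Gw (1 / 100) (cV δ) :=
    (gw_aff _ _ (by norm_num) _ _ hδ hδ' (by norm_num) (by norm_num)).mono (by norm_num)
  have hS : Gw (1 / 15) (cS δ) :=
    (gw_aff _ _ (by norm_num) _ _ hδ hδ' (by norm_num [fa]) (by norm_num [fa])).mono (by norm_num)
  have hT : Gw 2 (cT δ) :=
    (gw_aff _ _ (by norm_num) _ _ hδ hδ' (by norm_num) (by norm_num)).mono (by norm_num)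
  have hU : Gw 4 (cU δ) :=
    (gw_aff _ _ (by norm_num) _ _ hδ hδ' (by norm_num [fa]) (by norm_num [fa])).mono (by norm_num)
  have hQ : Gw 4 (cQ δ) :=
    (gw_aff _ _ (by norm_num) _ _ hδ hδ' (by norm_num [fa]) (by norm_num [fa])).mono (by norm_num)
  have hM : Gw (1 / 6) (nM δ τ) :=
    (((((((hV.mulB hτ).mulB hτ).smul 2).add (((hV.mul hV).mulB hτ).mulB hτ)).add
      ((hS.mulB hτ).smul (-2))).add (((hV.mul hS).mulB hτ).smul (-2))).add (hS.mul hS)).mono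
      (by norm_num [rho])
  have hA : Gw 6 (nA δ τ) := (hU.add ((hT.mulB hτ).smul (-1))).mono (by norm_num)
  have hA2 : Gw (1 / 1000) (nA2 δ τ) := ((hA.mul hA).smul (-1)).mono (by norm_num [rho])
  have hB : Gw 5 (nB δ) := (hV.add (hQ.smul (-1))).mono (by norm_num)
  have hD : Gw 6 (nD δ) := (hB.add (gw_id.smul (-1))).mono (by norm_num)
  have hAl : Gw 12 (nAl δ τ) :=
    ((((hM.add hA2).add hB).add hD).add (hB.mul hD)).mono (by norm_num [rho])
  have hP : Gw 11 (nP δ) := ((hB.smul 2).add (hB.mul hB)).mono (by norm_num [rho])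
  have hQ' : Gw (1 / 1000) (nQ δ τ) :=
    (((hM.mul hM).smul 3).add (hM.mul (hM.mul hM))).mono (by norm_num [rho])
  have hR : Gw (1 / 100) (nR δ τ) :=
    ((((hB.mul hB).add ((hP.mul hM).smul 3)).add hQ').add (hP.mul hQ')).mono (by norm_num [rho])
  exact ⟨hM.mono (by norm_num), hB, hAl, (((((hM.smul (-2)).add hA2).add (hB.mul hD)).add
    ((hAl.mul hAl).smul (1 / 4))).add (hR.smul (-1))).mono (by norm_num [rho])⟩

theorem wl_fix (hδ : 0 ≤ δ) (hδ' : δ ≤ 1 / 10 ^ 13) (hτ : ‖τ‖ ≤ 1) {F : Al} (hF : F ∈ SS)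
    (hfix : Phi δ τ F = F) : Wl rho F := by
  have g := good_Phi hδ hδ' hτ
  have key : ∀ k : ℕ, (Phi δ τ)^[k] 0 ∈ SS ∧ Wl rho ((Phi δ τ)^[k] 0) ∧
      ‖(Phi δ τ)^[k] 0 - F‖ ≤ (1 / 2) ^ k * ‖F‖ := fun k => by
    induction k with
    | zero => exact ⟨⟨by simpa using rho_pos.le, fun n => by simp⟩,
        fun s => by simpa using rho_pos.le, by simp⟩
    | succ k ih =>
      rw [Function.iterate_succ_apply']
      refine ⟨⟨(g.2.1 _ ih.1).1.trans (by linarith [rho_pos]), (g.2.1 _ ih.1).2⟩,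
        by simpa using (gw_all hδ hδ' hτ).2.2.2 _ ih.1 ih.2.1, ?_⟩
      have := g.2.2 _ ih.1 _ hF
      rw [hfix] at this
      rw [pow_succ]
      linarith [ih.2.2]
  have t : Tendsto (fun k => (Phi δ τ)^[k] 0) atTop (𝓝 F) := by
    rw [tendsto_iff_norm_sub_tendsto_zero]
    refine squeeze_zero (fun _ => norm_nonneg _) (fun k => (key k).2.2) ?_
    simpa using (tendsto_pow_atTop_nhds_zero_of_lt_one (r := (1 / 2 : ℝ)) (by norm_num)
      (by norm_num)).mul_const ‖F‖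
  intro s
  have hc : Continuous fun G : Al => ∑ n ∈ s, om n * ‖G n‖ :=
    continuous_finsetSum _ fun n _ => continuous_const.mul
      (lp.lipschitzWith_one_eval (E := fun _ : ℤ => BC) 1 n).continuous.norm
  exact le_of_tendsto' ((hc.tendsto F).comp t) fun k => (key k).2.1 s

theorem Wl.summ_pow {K : ℝ} {F : Al} (h : Wl K F) (p : ℕ) :
    Summable fun n => (1 + fa n) ^ p * ‖F n‖ := by
  refine Summable.of_nonneg_of_le (fun n => mul_nonneg (pow_nonneg (by linarith [fa_nonneg n]) _)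
    (norm_nonneg _)) (fun n => ?_) (h.summ.mul_left (128 ^ p * p.factorial * Real.exp (1 / 2)))
  rw [← mul_assoc]
  refine mul_le_mul_of_nonneg_right ?_ (norm_nonneg _)
  have a := Real.pow_div_factorial_le_exp (1 / 2 + |(n : ℝ)| / 2) (by positivity) p
  rw [div_le_iff₀ (by positivity), Real.exp_add] at a
  calc _ ≤ (128 * (1 / 2 + |(n : ℝ)| / 2)) ^ p := by
        have := fa_nonneg n
        gcongr
        unfold fa
        linarith
    _ ≤ _ := by
        rw [mul_pow, om, mul_assoc, mul_assoc]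
        gcongr
        linarith

end Pool.Agent.Lib.S38
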