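import Pool.Agent.Lib.S38.Reg
import Pool.Agent.Lib.MP_28d281_gt.Geom

/-! Regularity of the perturbation on the closed disc. -/

set_option autoImplicit false

open Complex Filter Topology Set Metric
open scoped Real ContDiff

namespace Pool.Agent.Lib.S38

open Pool.Agent.Lib.MP_28d281_gt Pool.Agent.Lib.CM64

variable {γ : ℝ} {f f1 f2 : ℂ → ℂ} {x : ℂ}

theorem exp_loc (hx : x ≠ 0) {y : ℂ} (hy : y ≠ 0) : exp (log x + log (y / x)) = y := by
  rw [exp_add, exp_log hx, exp_log (div_ne_zero hy hx), mul_div_cancel₀ _ hx]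

theorem mem_H {u : ℂ} (h : ‖exp u‖ ≤ 1) : u ∈ H := by
  rw [norm_exp, Real.exp_le_one_iff] at h
  exact h

theorem desc_at (h : S γ f) (d : Der f f1 f2) (hx : x ≠ 0) (h1 : ‖x‖ < 1) :
    HasFDerivAt (desc f) ((dd (f1 (log x)) (f2 (log x))).comp (x⁻¹ • (1 : ℂ →L[ℝ] ℂ))) x := by
  have e : log x + log (x / x) = log x := by rw [div_self hx, log_one, add_zero]
  have h2 : (log x).re < 0 := by
    rw [log_re]
    exact Real.log_neg (norm_pos_iff.mpr hx) h1
  have h3 : HasFDerivAt f (dd (f1 (log x)) (f2 (log x))) (log x + log (x / x)) := by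
    rw [e]
    exact (d _ h2.le).hasFDerivAt (H_nhds h2)
  refine (h3.comp x (loc_deriv hx).complexToReal_fderiv).congr_of_eventuallyEq ?_
  filter_upwards [isOpen_ne.mem_nhds hx, isOpen_ball.mem_nhds (mem_ball_zero_iff.mpr h1)]
    with y hy hy1
  obtain ⟨n, hn⟩ := exp_eq_exp_iff_exists_int.mp ((exp_log hy).trans (exp_loc hx hy).symm)
  rw [desc, if_neg hy, hn]
  exact h.out.1.per _ (mem_H (by rw [exp_loc hx hy]; exact (mem_ball_zero_iff.mp hy1).le)) n

theorem s_c : S (-1) cr ∧ S (-1) ci := by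
  have a : S (-1) (mon (-1) 0) := by simpa using s_mon (-1) 0
  have b : S (-1) (mon 0 (-1)) := by simpa using s_mon 0 (-1)
  refine ⟨((a.add b).cmul (1 / 2)).congr fun u _ => ?_,
    ((a.sub b).cmul (1 / (2 * I))).congr fun u _ => ?_⟩
  · rw [cr, re_eq_add_conj, ← exp_conj]
    simp [mon]
    ring
  · rw [ci, im_eq_sub_conj, ← exp_conj]
    simp [mon, div_eq_mul_inv]
    ring

theorem desc_bd (h : S γ f) : ∃ C, ∀ᶠ y in 𝓝 (0 : ℂ), ‖desc f y‖ ≤ C * ‖y‖ ^ γ := by
  obtain ⟨C, hC, a⟩ := h.out.1.bd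
  refine ⟨C, ?_⟩
  filter_upwards [closedBall_mem_nhds (0 : ℂ) one_pos] with y hy
  by_cases hx : y = 0
  · rw [hx, desc_zero, norm_zero]
    positivity
  · rw [desc, if_neg hx]
    refine (a _ (mem_H (by rw [exp_log hx]; exact mem_closedBall_zero_iff.mp hy))).trans
      (le_of_eq ?_)
    rw [log_re, Real.rpow_def_of_pos (norm_pos_iff.mpr hx), mul_comm γ]

theorem desc_pole : ∀ (j : ℕ) {γ : ℝ} {f : ℂ → ℂ}, S γ f → (j : ℝ) < γ →
    ContDiffAt ℝ j (desc f) 0
  | 0, γ, f, h, hγ => by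
    obtain ⟨C, a⟩ := desc_bd h
    obtain ⟨-, f1, f2, -, -, d⟩ := h.out
    refine contDiffAt_zero.mpr ⟨ball 0 1, ball_mem_nhds 0 one_pos, fun x hx =>
      ContinuousAt.continuousWithinAt ?_⟩
    by_cases h0 : x = 0
    · subst h0
      rw [ContinuousAt, desc_zero]
      exact squeeze_zero_norm' a (tendsto_rpow_zero (by simpa using hγ) C)
    · exact (desc_at h d h0 (mem_ball_zero_iff.mp hx)).continuousAt
  | j + 1, γ, f, h, hγ => by
    obtain ⟨C, a⟩ := desc_bd h
    obtain ⟨-, f1, f2, h1, h2, d⟩ := h.out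
    have k1 := (h1.mul s_c.1 le_rfl).add (h2.mul s_c.2 le_rfl)
    have k2 := ((h1.mul s_c.2 le_rfl).cmul (-1)).add (h2.mul s_c.1 le_rfl)
    have hγ' : (j : ℝ) < γ + -1 := by push_cast at hγ; linarith
    push_cast
    refine contDiffAt_succ_iff_hasFDerivAt.mpr
      ⟨fun x => dd (desc (fun u => f1 u * cr u + f2 u * ci u) x)
        (desc (fun u => -1 * (f1 u * ci u) + f2 u * cr u) x),
        ⟨ball 0 1, ball_mem_nhds 0 one_pos, fun x hx => ?_⟩,
        (contDiffAt_const.smulRight (desc_pole j k1 hγ')).add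
          (contDiffAt_const.smulRight (desc_pole j k2 hγ'))⟩
    by_cases h0 : x = 0
    · subst h0
      have e : dd (desc (fun u => f1 u * cr u + f2 u * ci u) 0)
          (desc (fun u => -1 * (f1 u * ci u) + f2 u * cr u) 0) = 0 := by
        ext1; simp [dd_apply, desc_zero]
      beta_reduce
      rw [e, hasFDerivAt_iff_isLittleO_nhds_zero]
      simp only [zero_add, desc_zero, sub_zero, _root_.zero_apply]
      have hγ1 : 0 < γ - 1 := by
        have : (0 : ℝ) ≤ j := Nat.cast_nonneg j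
        linarith
      refine Asymptotics.isLittleO_iff.mpr fun c hc => ?_
      filter_upwards [(tendsto_rpow_zero hγ1 C).eventually (ge_mem_nhds hc), a] with y hy hb
      refine hb.trans ?_
      have : ‖y‖ ^ γ = ‖y‖ ^ (γ - 1) * ‖y‖ := by
        rw [← Real.rpow_add_one' (norm_nonneg _) (by linarith)]; congr 1; ring
      rw [this, ← mul_assoc]
      gcongr
    · refine (desc_at h d h0 (mem_ball_zero_iff.mp hx)).congr_fderiv ?_
      have e2 : x⁻¹ = exp (-log x) := by rw [exp_neg, exp_log h0]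
      rw [e2]
      ext1; simp [dd_apply, desc, h0, cr, ci]; ring

theorem norm_ev' (G : Al) (s θ : ℝ) : ‖ev G s θ‖ ≤ Real.exp (-16 * s) * ‖G‖ := by
  refine (norm_tsum_le_tsum_norm (summ_et_norm G s θ)).trans ?_
  rw [norm_eq, ← tsum_mul_left]
  exact (summ_et_norm G s θ).tsum_le_tsum (norm_et G s θ) ((summ G).mul_left _)

theorem Y_reg {δ κ : ℝ} {F : Al} (hδ : 0 ≤ δ) (hδ' : δ ≤ 1 / 10 ^ 13) (hF : F ∈ SS)
    (hfix : Phi δ (taB κ) F = F) (T : Sol (ta κ) δ) (hT : ∀ s, 0 ≤ s → ∀ θ,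
      T.v s θ = (ev (cV δ F) s θ).re ∧ T.vt s θ = (I * ev (cT δ F) s θ).re) :
    ContDiffAt ℝ 10 T.Y 0 ∧
      (∀ x ∈ closedBall (0 : ℂ) 1, x ≠ 0 → ContDiffWithinAt ℝ ∞ T.Y (closedBall 0 1) x) ∧
      ∀ z ∈ ball (0 : ℂ) 1, ‖fderiv ℝ T.Y z‖ ≤ 1 := by
  have sb := sb_all (wl_fix hδ hδ' (norm_taB κ) hF hfix) δ
  have g : S 16 fun u => ser (W0 δ F) u - ser (fr (W0 δ F)) u :=
    (s_ser hδ hδ' hF hfix 0).sub (s_ser hδ hδ' hF hfix 1)
  have d : Der (fun u => ser (W0 δ F) u - ser (fr (W0 δ F)) u)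
      (fun u => -ser (W1 δ F) u + ser (fr (W1 δ F)) u)
      fun u => I * ser (fr (W0 δ F)) u - I * ser (fr (fr (W0 δ F))) u := fun u _ =>
    (((ser_fderiv (sb 0).1 (sb 0).2.1 (sb 1).1 (d0 δ F) u).sub (ser_fderiv (sb 1).1 (sb 1).2.1
      (sb 2).1 (fr_deriv (d0 δ F)) u)).congr_fderiv
        (by ext1 v; simp [dd_apply]; ring)).hasFDerivWithinAt
  have e : ∀ u ∈ H, T.Y (exp u) = ser (W0 δ F) u - ser (fr (W0 δ F)) u := fun u hu => by
    have hs : 0 ≤ -u.re := neg_nonneg.mpr hu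
    obtain ⟨e0, -, e2, -⟩ := evs δ F hs u.im
    have a := T.Yexp (-u.re) u.im
    rw [(hT _ hs _).1, (hT _ hs _).2, conj_eq_iff_re.mp (by
      simpa using ((good_cV hδ hδ').2.1 F hF).2.conj_ev _ _), conj_eq_iff_re.mp (by
      rw [map_mul, ((good_cT hδ hδ').2.1 F hF).2.conj_ev]; simp), ← e0, ← e2, pt_eq] at a
    rw [a, mul_comm I, mul_assoc, I_mul_I]
    ring
  have e' : ∀ x ∈ closedBall (0 : ℂ) 1,
      T.Y x = desc (fun u => ser (W0 δ F) u - ser (fr (W0 δ F)) u) x := fun x hx => by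
    by_cases h0 : x = 0
    · rw [h0, T.Y0, desc_zero]
    · rw [desc, if_neg h0, ← e _ (mem_H (by rw [exp_log h0]; exact mem_closedBall_zero_iff.mp hx)),
        exp_log h0]
  have b : ∀ z, z ≠ 0 → ‖z‖ < 1 → ‖fderiv ℝ T.Y z‖ ≤ 1 := fun z h0 hz => by
    have hs := log_nonneg' hz.le
    have hp := norm_pos_iff.mpr h0
    obtain ⟨-, e1, e2, e3, e4, -⟩ := evs δ F hs (arg z)
    rw [← log_re, ← log_im, pt_eq] at e1 e2 e3 e4
    have n : ∀ {ε K : ℝ} {Φ : Al → Al}, Good ε K Φ → K ≤ 4 →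
        ‖ev (Φ F) (-(log z).re) (log z).im‖ ≤ ‖z‖ / 4 := fun {ε K Φ} h hK => by
      have a := (h.2.1 F hF).1
      have a2 : Real.exp (-16 * -(log z).re) ≤ ‖z‖ := by
        rw [log_re]
        exact (Real.exp_le_exp.mpr (by linarith)).trans_eq (Real.exp_log hp)
      refine (norm_ev' _ _ _).trans ((mul_le_mul a2 a (norm_nonneg _) hp.le).trans ?_)
      unfold rho
      nlinarith
    have n1 := n (good_cS hδ hδ') (by norm_num)
    have n2 := n (good_cT hδ hδ') (by norm_num)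
    have n3 := n (good_cU hδ hδ') le_rfl
    have n4 := n (good_cQ hδ hδ') le_rfl
    rw [((desc_at g d h0 hz).congr_of_eventuallyEq (eventually_of_mem (mem_of_superset
      (isOpen_ball.mem_nhds (mem_ball_zero_iff.mpr hz)) ball_subset_closedBall) e')).fderiv,
      e1, e2, e3, e4]
    refine (ContinuousLinearMap.opNorm_comp_le _ _).trans ?_
    rw [norm_smul, norm_one, mul_one, norm_inv, ← div_eq_mul_inv, div_le_one hp]
    refine (norm_dd _ _).trans ((add_le_add (norm_add_le _ _) (norm_sub_le _ _)).trans ?_)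
    rw [norm_neg, norm_mul, norm_mul, norm_I]
    linarith
  refine ⟨(desc_pole 10 g (by norm_num)).congr_of_eventuallyEq
    (eventually_of_mem (closedBall_mem_nhds 0 one_pos) e'), fun x hx h0 => ?_, fun z hz => ?_⟩
  · have m : ∀ y ∈ closedBall (0 : ℂ) 1 ∩ {0}ᶜ, log x + log (y / x) ∈ H := fun y hy =>
      mem_H (by rw [exp_loc h0 hy.2]; exact mem_closedBall_zero_iff.mp hy.1)
    have l : ContDiffAt ℝ ∞ (fun y : ℂ => log x + log (y / x)) x :=
      (contDiffAt_const.add (ContDiffAt.comp (g := log) x (contDiffAt_log (by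
        rw [id, div_self h0]; exact one_mem_slitPlane)) (contDiffAt_id.div_const x))).restrict_scalars ℝ
    refine (contDiffWithinAt_inter (isOpen_compl_singleton.mem_nhds h0)).mp
      (((g.contDiffOn _ (m x ⟨hx, h0⟩)).comp x l.contDiffWithinAt m).congr_of_mem
        (fun y hy => ?_) ⟨hx, h0⟩)
    rw [Function.comp_apply, ← e _ (m y hy), exp_loc h0 hy.2]
  · by_cases h0 : z = 0
    · rw [h0]
      exact sub_nonneg.mp (at_zero (continuous_const.sub
        (T.hY.continuous_fderiv two_ne_zero).norm) one_half_pos fun x hx h =>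
          sub_nonneg.mpr (b x hx (by linarith)))
    · exact b z h0 (mem_ball_zero_iff.mp hz)

end Pool.Agent.Lib.S38
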